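import Pool.Agent.HMZ.St
import Pool.Agent.AS.Kill

/-! # HMZ: module Bad -/

set_option autoImplicit false

namespace Pool.Agent.HMZ

open Complex Metric Set Filter Topology MeasureTheory Pool.Agent.AS

theorem bad_pow {p L lam : ℝ} {N : ℕ} (hlam : 2 ≤ lam) (hL : 1 ≤ L)
    (h : L ^ (p + 1) < lam ^ (N + 1)) : lam⁻¹ ^ N * L ^ p ≤ lam * L⁻¹ := by
  have hL0 : 0 < L := by linarith
  have hlam0 : 0 < lam := by linarith
  have h1 : L ^ (p + 1) = L ^ p * L := by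
    rw [Real.rpow_add hL0, Real.rpow_one]
  have h2 : lam ^ (N + 1) = lam ^ N * lam := pow_succ lam N
  rw [h1, h2] at h
  have h3 : 0 < lam ^ N := by positivity
  rw [inv_pow]
  have h4 : (lam ^ N)⁻¹ * L ^ p = (L ^ p * L) / (lam ^ N * L) := by
    field_simp
  have h5 : lam * L⁻¹ = (lam ^ N * lam) / (lam ^ N * L) := by
    field_simp
  rw [h4, h5]
  exact div_le_div_of_nonneg_right h.le (by positivity)

theorem bad_inv {L : ℝ} (hL : 1 ≤ L) : L⁻¹ ≤ L ^ (-(1 / 2) : ℝ) := by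
  rw [← Real.rpow_neg_one]
  exact Real.rpow_le_rpow_of_exponent_le hL (by norm_num)

theorem bad_half {A L x : ℝ} (hA : 1 ≤ A) (hL : 1 ≤ L) (hx : 0 ≤ x) (h : x ≤ A / L) :
    x ^ (1 / 2 : ℝ) ≤ A * L ^ (-(1 / 2) : ℝ) := by
  have hL0 : 0 < L := by linarith
  have hA0 : 0 < A := by linarith
  calc x ^ (1 / 2 : ℝ) ≤ (A / L) ^ (1 / 2 : ℝ) := Real.rpow_le_rpow hx h (by norm_num)
    _ = A ^ (1 / 2 : ℝ) * L ^ (-(1 / 2) : ℝ) := by
        rw [Real.div_rpow hA0.le hL0.le, Real.rpow_neg hL0.le]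
        rfl
    _ ≤ A * L ^ (-(1 / 2) : ℝ) := by
        apply mul_le_mul_of_nonneg_right _ (by positivity)
        calc A ^ (1 / 2 : ℝ) ≤ A ^ (1 : ℝ) :=
              Real.rpow_le_rpow_of_exponent_le hA (by norm_num)
          _ = A := Real.rpow_one A

theorem thm_Bad : St_Bad := by
  intro f R₁ A p C lam hf hA hp hC hlam
  refine ⟨C * A * (2 + lam), by positivity, ?_⟩
  intro N L ξ hL hLN hbd hhol hdef ζ hbad
  obtain ⟨w, hw, n, hn1, hn2, hn3⟩ := hbad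
  have hL0 : 0 < L := by linarith
  have hA0 : 0 < A := by linarith
  have hlam0 : 0 < lam := by linarith
  have hK : 0 < C * ((N : ℝ) + 1) := by positivity
  have hD : 0 < ‖deriv (f^[n]) w‖ := by
    by_contra hcon
    have h0 : ‖deriv (f^[n]) w‖ ≤ 0 := not_lt.mp hcon
    have : A * ‖deriv (f^[n]) w‖ ≤ 0 := mul_nonpos_of_nonneg_of_nonpos hA0.le h0
    linarith
  have hD' : ‖deriv (f^[n]) w‖⁻¹ ≤ A * L⁻¹ := by
    rw [← div_eq_mul_inv, inv_le_comm₀ hD (by positivity), inv_div, div_le_iff₀ hA0]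
    linarith
  have horb := orbit f ξ hf n w (norm_pos_iff.mp hD)
  have h1 : ‖ξ (f^[n] w)‖ * ‖deriv (f^[n]) w‖⁻¹ ≤ C * (N + 1) * (A * L⁻¹) :=
    mul_le_mul (hbd _) hD' (by positivity) hK.le
  have h2 : ∑ j ∈ Finset.range n, ‖ξ (f (f^[j] w)) - deriv f (f^[j] w) * ξ (f^[j] w)‖ *
      ‖deriv (f^[j + 1]) w‖⁻¹ ≤ C * (N + 1) * (lam * A * L⁻¹) := by
    calc ∑ j ∈ Finset.range n, ‖ξ (f (f^[j] w)) - deriv f (f^[j] w) * ξ (f^[j] w)‖ *
          ‖deriv (f^[j + 1]) w‖⁻¹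
        ≤ ∑ j ∈ Finset.range n, C * (N + 1) * lam⁻¹ ^ N * ‖deriv (f^[j + 1]) w‖⁻¹ := by
          apply Finset.sum_le_sum
          intro j hj
          apply mul_le_mul_of_nonneg_right _ (by positivity)
          exact hdef _ (hn1 j (Finset.mem_range.mp hj)).le
      _ = C * (N + 1) * lam⁻¹ ^ N * ∑ j ∈ Finset.range n, ‖deriv (f^[j + 1]) w‖⁻¹ := by
          rw [Finset.mul_sum]
      _ ≤ C * (N + 1) * lam⁻¹ ^ N * (A * L ^ p) :=
          mul_le_mul_of_nonneg_left hn3 (by positivity)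
      _ = C * (N + 1) * A * (lam⁻¹ ^ N * L ^ p) := by ring
      _ ≤ C * (N + 1) * A * (lam * L⁻¹) :=
          mul_le_mul_of_nonneg_left (bad_pow hlam hL hLN) (by positivity)
      _ = C * (N + 1) * (lam * A * L⁻¹) := by ring
  have h3 : ‖ξ w‖ ≤ C * (N + 1) * (A * (1 + lam)) * L ^ (-(1 / 2) : ℝ) := by
    calc ‖ξ w‖ ≤ C * (N + 1) * (A * L⁻¹) + C * (N + 1) * (lam * A * L⁻¹) := by linarith
      _ = C * (N + 1) * (A * (1 + lam)) * L⁻¹ := by ring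
      _ ≤ C * (N + 1) * (A * (1 + lam)) * L ^ (-(1 / 2) : ℝ) :=
          mul_le_mul_of_nonneg_left (bad_inv hL) (by positivity)
  have h4 : ‖ξ ζ - ξ w‖ ≤ C * (N + 1) * (A * L ^ (-(1 / 2) : ℝ)) := by
    refine (hhol ζ w).trans ?_
    apply mul_le_mul_of_nonneg_left _ hK.le
    apply bad_half hA hL (norm_nonneg _)
    rw [mem_ball, dist_comm, dist_eq_norm] at hw
    exact hw.le
  calc ‖ξ ζ‖ = ‖(ξ ζ - ξ w) + ξ w‖ := by rw [sub_add_cancel]
    _ ≤ ‖ξ ζ - ξ w‖ + ‖ξ w‖ := norm_add_le _ _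
    _ ≤ C * (N + 1) * (A * L ^ (-(1 / 2) : ℝ)) +
        C * (N + 1) * (A * (1 + lam)) * L ^ (-(1 / 2) : ℝ) := add_le_add h4 h3
    _ = C * A * (2 + lam) * (N + 1) * L ^ (-(1 / 2) : ℝ) := by ring

end Pool.Agent.HMZ
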