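import Pool.Agent.HMZ.St
import Pool.Agent.AS.Kill

/-!
# HMZ, module Bal: balls of radius `exp (- ε m)` stay bounded up to the time `m`
-/

set_option autoImplicit false

noncomputable section

namespace Pool.Agent.HMZ

open Complex Metric Set Filter Topology MeasureTheory Pool.Agent.AS
open scoped ComplexConjugate

theorem bal_fr {f : ℂ → ℂ} {R : ℝ} {V : Set ℂ} (hf : Differentiable ℂ f) (h : Comp f R V)
    {ζ : ℂ} (hζ : ζ ∈ frontier V) (i : ℕ) : ‖f^[i] ζ‖ ≤ R := by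
  have h1 : V ⊆ {z | ‖f^[i] z‖ ≤ R} := fun z hz => h.bd i z hz
  have h2 : IsClosed {z | ‖f^[i] z‖ ≤ R} :=
    isClosed_le ((hf.continuous.iterate i).norm) continuous_const
  exact closure_minimal h1 h2 (frontier_subset_closure hζ)

theorem bal_chain {f : ℂ → ℂ} {M₁ : ℝ} (hf : Differentiable ℂ f) (hM : 1 ≤ M₁) (w : ℂ) (n : ℕ)
    (hb : ∀ i < n, ‖deriv f (f^[i] w)‖ ≤ M₁) (a c : ℕ) (hac : a + c ≤ n) :
    ‖deriv (f^[a + c]) w‖ ≤ M₁ ^ c * ‖deriv (f^[a]) w‖ := by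
  induction c with
  | zero => simp
  | succ c ih =>
    have h1 := kill_deriv_succ f hf (a + c) w
    have h2 := ih (by omega)
    rw [← add_assoc, h1, norm_mul, pow_succ]
    calc ‖deriv f (f^[a + c] w)‖ * ‖deriv (f^[a + c]) w‖
        ≤ M₁ * (M₁ ^ c * ‖deriv (f^[a]) w‖) :=
          mul_le_mul (hb _ (by omega)) h2 (norm_nonneg _) (by linarith)
      _ = M₁ ^ c * M₁ * ‖deriv (f^[a]) w‖ := by ring

theorem bal_bad {f : ℂ → ℂ} {R M₁ : ℝ} (hf : Differentiable ℂ f) (hM : 1 ≤ M₁)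
    (hMb : ∀ z, ‖z‖ ≤ R + 1 → ‖deriv f z‖ ≤ M₁) (ε : ℝ) (hε : 0 < ε) (m : ℕ) (ζ : ℂ)
    (hζ : ∀ i, ‖f^[i] ζ‖ ≤ R)
    (hw : ∃ w ∈ ball ζ (Real.exp (-(ε * m))), ∃ j ≤ m, R + 1 ≤ ‖f^[j] w‖) :
    BadP f (R + 1) 1 (Real.exp (ε * m)) (Real.log (2 * M₁) / ε) ζ := by
  obtain ⟨w, hwb, j, hjm, hj⟩ := hw
  classical
  have hex : ∃ j, ∃ v ∈ segment ℝ ζ w, R + 1 ≤ ‖f^[j] v‖ := ⟨j, w, right_mem_segment ℝ ζ w, hj⟩
  obtain ⟨v, hv, hv1⟩ := Nat.find_spec hex
  have hmin : ∀ i < Nat.find hex, ∀ x ∈ segment ℝ ζ w, ‖f^[i] x‖ < R + 1 := by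
    intro i hi x hx
    by_contra hcon
    push Not at hcon
    exact Nat.find_min hex hi ⟨x, hx, hcon⟩
  have hle : Nat.find hex ≤ m :=
    (Nat.find_min' hex ⟨w, right_mem_segment ℝ ζ w, hj⟩).trans hjm
  set J := Nat.find hex with hJ
  have hexp : Real.exp (-(ε * m)) = 1 / Real.exp (ε * m) := by
    rw [Real.exp_neg, one_div]
  have hL0 : 0 < Real.exp (ε * m) := Real.exp_pos _
  have hL1 : 1 ≤ Real.exp (ε * m) := Real.one_le_exp (by positivity)
  have hseg : segment ℝ ζ w ⊆ ball ζ (Real.exp (-(ε * m))) :=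
    (convex_ball ζ _).segment_subset (mem_ball_self (Real.exp_pos _)) hwb
  have hw' : ∃ w' ∈ segment ℝ ζ w, Real.exp (ε * m) ≤ ‖deriv (f^[J]) w'‖ := by
    by_contra hcon
    push Not at hcon
    have h1 := (convex_segment ζ w).norm_image_sub_le_of_norm_deriv_le (𝕜 := ℂ) (f := f^[J])
      (C := Real.exp (ε * m)) (fun x _ => (hf.iterate J) x) (fun x hx => (hcon x hx).le)
      (left_mem_segment ℝ ζ w) hv
    have h2 : ‖v - ζ‖ < 1 / Real.exp (ε * m) := by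
      rw [← hexp, ← dist_eq_norm]
      exact hseg hv
    have h3 : Real.exp (ε * m) * ‖v - ζ‖ < 1 := by
      rw [lt_div_iff₀ hL0] at h2
      linarith
    have h4 : ‖f^[J] v‖ ≤ ‖f^[J] v - f^[J] ζ‖ + ‖f^[J] ζ‖ := by
      have := norm_add_le (f^[J] v - f^[J] ζ) (f^[J] ζ)
      rwa [sub_add_cancel] at this
    have h5 := hζ J
    linarith
  obtain ⟨w', hws, hwL⟩ := hw'
  refine ⟨w', ?_, J, fun i hi => hmin i hi w' hws, by rw [one_mul]; exact hwL, ?_⟩
  · rw [← hexp]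
    exact hseg hws
  · have hbd : ∀ i < J, ‖deriv f (f^[i] w')‖ ≤ M₁ := fun i hi => hMb _ (hmin i hi w' hws).le
    have hterm : ∀ i ∈ Finset.range J, ‖deriv (f^[i + 1]) w'‖⁻¹ ≤ M₁ ^ m := by
      intro i hi
      have hi' := Finset.mem_range.mp hi
      have h1 := bal_chain hf hM w' J hbd (i + 1) (J - (i + 1)) (by omega)
      have h2 : i + 1 + (J - (i + 1)) = J := by omega
      rw [h2] at h1
      have h3 : M₁ ^ (J - (i + 1)) ≤ M₁ ^ m := pow_le_pow_right₀ hM (by omega)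
      have h4 : 1 ≤ M₁ ^ m * ‖deriv (f^[i + 1]) w'‖ :=
        calc 1 ≤ Real.exp (ε * m) := hL1
          _ ≤ ‖deriv (f^[J]) w'‖ := hwL
          _ ≤ M₁ ^ (J - (i + 1)) * ‖deriv (f^[i + 1]) w'‖ := h1
          _ ≤ M₁ ^ m * ‖deriv (f^[i + 1]) w'‖ := mul_le_mul_of_nonneg_right h3 (norm_nonneg _)
      have h5 : 0 < ‖deriv (f^[i + 1]) w'‖ := by
        rcases (norm_nonneg (deriv (f^[i + 1]) w')).lt_or_eq with h | h
        · exact h
        · rw [← h, mul_zero] at h4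
          linarith
      rw [inv_le_iff_one_le_mul₀ h5]
      exact h4
    have h6 := Finset.sum_le_sum hterm
    rw [Finset.sum_const, Finset.card_range, nsmul_eq_mul] at h6
    have h7 : Real.exp (ε * m) ^ (Real.log (2 * M₁) / ε) = (2 * M₁) ^ m := by
      rw [← Real.exp_mul]
      have h8 : ε * m * (Real.log (2 * M₁) / ε) = m * Real.log (2 * M₁) := by
        field_simp
      rw [h8, ← Real.log_pow, Real.exp_log (by positivity)]
    rw [one_mul, h7]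
    refine h6.trans ?_
    rw [mul_pow]
    refine mul_le_mul_of_nonneg_right ?_ (by positivity)
    have h8 : (J : ℝ) ≤ m := by exact_mod_cast hle
    have h9 : (m : ℝ) ≤ 2 ^ m := by exact_mod_cast (Nat.lt_two_pow_self (n := m)).le
    linarith

theorem thm_Bal (hGen : St_Gen) : St_Bal := by
  intro f R V hf h0 hV hdis ψ hψ hmap hder ε hε
  have hR : 0 ≤ R := by
    obtain ⟨z, hz⟩ := hV.conn.nonempty
    exact (norm_nonneg _).trans (hV.bd 0 z hz)
  obtain ⟨M, hM⟩ := (isCompact_closedBall (0 : ℂ) (R + 1)).exists_bound_of_continuousOn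
    (f := deriv f) (hf.contDiff (n := 1)).continuous_deriv_one.continuousOn
  have hM1 : (1 : ℝ) ≤ max M 1 := le_max_right _ _
  have hMb : ∀ z, ‖z‖ ≤ R + 1 → ‖deriv f z‖ ≤ max M 1 := fun z hz =>
    (hM z (mem_closedBall_zero_iff.mpr hz)).trans (le_max_left _ _)
  have hp : 0 ≤ Real.log (2 * max M 1) / ε :=
    div_nonneg (Real.log_nonneg (by linarith)) hε.le
  rw [ENNReal.tendsto_nhds_zero]
  intro η hη
  by_cases hη' : η = ⊤
  · exact Filter.Eventually.of_forall fun m => by rw [hη']; exact le_top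
  have hη0 : 0 < η.toReal := ENNReal.toReal_pos hη.ne' hη'
  obtain ⟨L₀, hL₀⟩ := hGen f R (R + 1) V hf h0 hV hdis (by linarith) (by linarith) ψ hψ hmap hder
    (Real.log (2 * max M 1) / ε) η.toReal hp hη0
  have htend : Tendsto (fun m : ℕ => Real.exp (ε * m)) atTop atTop :=
    Real.tendsto_exp_atTop.comp (tendsto_natCast_atTop_atTop.const_mul_atTop hε)
  filter_upwards [htend.eventually_ge_atTop L₀] with m hm
  rw [← ENNReal.ofReal_toReal hη']
  refine (measure_mono ?_).trans (hL₀ _ hm)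
  rintro t ⟨ht, ζ, hζ, hRL, hbad⟩
  exact ⟨ht, ζ, hζ, hRL, bal_bad hf hM1 hMb ε hε m ζ (bal_fr hf hV hζ) hbad⟩

end Pool.Agent.HMZ
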