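import Pool.Agent.HMZ.St

/-!
# HMZ: Cor — the case of injective iterates
-/

set_option autoImplicit false

noncomputable section

namespace Pool.Agent.HMZ

open Complex Metric Set Filter Topology MeasureTheory Pool.Agent.AS

theorem thm_Cor (hDat : St_Dat) (hBad : St_Bad) (hTC : St_TC) (hNum : St_Num) (hOpn : St_Opn) :
    St_Cor := by
  intro f R₁ V hf hf' hV hVR hR hinj hdis ψ hψ hψV hψ' A p h hA hp hh
  obtain ⟨b, r, ρ, hr, hρ, hρ1, hbV, hk⟩ := hOpn ψ V hV hψ hψV hψ'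
  obtain ⟨κ, hκ, hTC'⟩ := hTC ρ hρ hρ1
  obtain ⟨lam, hlam, hNum'⟩ := hNum κ h r R₁ p hκ hh hr hR hp
  obtain ⟨C, hC, hDat'⟩ := hDat f V b r R₁ lam hf hf' hV hVR hinj hdis hr hbV hR hlam
  obtain ⟨C', hC', hBad'⟩ := hBad f R₁ A p C lam hf hA hp hC hlam
  obtain ⟨L₀, hL₀, hN⟩ := hNum' C C' hC hC'
  refine ⟨L₀, fun L hL => ?_⟩
  by_contra hcon
  rw [not_le] at hcon
  have hL1 : 1 ≤ L := hL₀.trans hL
  have hL0 : 0 < L := by linarith
  have hLp : 1 ≤ L ^ (p + 1) := Real.one_le_rpow hL1 (by linarith)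
  obtain ⟨N, hN1, hN2⟩ := exists_nat_pow_near hLp (by linarith : 1 < lam)
  obtain ⟨ξ, G, k, hξc, hξb, hξh, hξi, hGd, hGb, hGξ, hkb, hkG⟩ := hDat' N
  obtain ⟨hn1, hn2⟩ := hN L hL N hN1 hN2
  set T : Set ℝ := {t ∈ Icc 0 (2 * Real.pi) | ∃ ζ ∉ V, RL ψ t ζ ∧ BadP f R₁ A L p ζ} with hT
  have hLr : 0 < L ^ (-(1 / 2) : ℝ) := Real.rpow_pos_of_pos hL0 _
  have hN0 : (0 : ℝ) < N + 1 := by positivity
  have hR4 : (0 : ℝ) < (4 * R₁) ^ (N + 1) := by positivity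
  set M : ℝ := C * (N + 1) * (4 * R₁) ^ (N + 1) with hM
  set m : ℝ := (4 * R₁) ^ (N + 1) * (2 * (C' * (N + 1) * L ^ (-(1 / 2) : ℝ))) with hm
  have hM0 : 0 < M := by positivity
  have hm0 : 0 < m := by positivity
  have hmM : m / M = 2 * C' * L ^ (-(1 / 2) : ℝ) / C := by
    rw [div_eq_div_iff hM0.ne' hC.ne', hm, hM]
    ring
  have hmM1 : m / M ≤ 1 := by
    rw [hmM, div_le_one hC]
    exact hn1
  have hmM2 : m ≤ M := (div_le_one hM0).1 hmM1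
  have hmM3 : 0 < m / M := by positivity
  have hTfin : volume T ≠ ⊤ := by
    have h1 : T ⊆ Icc 0 (2 * Real.pi) := fun t ht => ht.1
    exact ne_top_of_le_ne_top isCompact_Icc.measure_lt_top.ne (measure_mono h1)
  have hTh : h ≤ (volume T).toReal := by
    rw [← ENNReal.toReal_ofReal hh.le]
    exact ENNReal.toReal_mono hTfin hcon.le
  have hmain := hTC' M m (G ∘ ψ) T (hGd.comp hψ hψV) (fun z hz => hGb _ (hψV hz)) hm0 hmM2
    (fun t ht => ht.1) (by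
      intro t ht
      obtain ⟨-, ζ, hζV, hRL, hBP⟩ := ht
      have hξζ := hBad' N L ξ hL1 hN2 hξb hξh hξi ζ hBP
      have h1 : Tendsto (fun s : ℝ => ‖ξ (ψ (s * exp (t * I)))‖) (𝓝[<] 1) (𝓝 ‖ξ ζ‖) :=
        ((hξc.tendsto ζ).comp hRL).norm
      have hpos : 0 < C' * (N + 1) * L ^ (-(1 / 2) : ℝ) := by positivity
      have h2 : ∀ᶠ s : ℝ in 𝓝[<] 1,
          ‖ξ (ψ (s * exp (t * I)))‖ < 2 * (C' * (N + 1) * L ^ (-(1 / 2) : ℝ)) :=
        h1.eventually_lt_const (by linarith)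
      have h3 : ∀ᶠ s : ℝ in 𝓝[<] 1, ψ (s * exp (t * I)) ∉ closedBall b (2 * r) :=
        hRL.eventually (isClosed_closedBall.isOpen_compl.mem_nhds (fun h => hζV (hbV h)))
      have h4 : ∀ᶠ s : ℝ in 𝓝[<] 1, s ∈ Ioo (0 : ℝ) 1 :=
        Ioo_mem_nhdsLT one_pos
      filter_upwards [h2, h3, h4] with s hs2 hs3 hs4
      have hsV : ψ (s * exp (t * I)) ∈ V := by
        apply hψV
        rw [mem_ball_zero_iff, norm_mul, Complex.norm_exp_ofReal_mul_I, mul_one,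
          Complex.norm_real, Real.norm_eq_abs, abs_of_pos hs4.1]
        exact hs4.2
      exact (hGξ _ hsV hs3).trans (mul_le_mul_of_nonneg_left hs2.le hR4.le))
  obtain ⟨w, hw, hwk⟩ := hk k hkb
  have h1 := hmain w hw
  rw [Function.comp_apply, hwk] at h1
  have h2 : (m / M) ^ (κ * (volume T).toReal) ≤ (m / M) ^ (κ * h) :=
    Real.rpow_le_rpow_of_exponent_ge hmM3 hmM1 (mul_le_mul_of_nonneg_left hTh hκ.le)
  have h3 : r ^ (N + 2) ≤ M * (m / M) ^ (κ * h) :=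
    hkG.trans (h1.trans (mul_le_mul_of_nonneg_left h2 hM0.le))
  rw [hmM] at h3
  exact absurd hn2 (not_lt.2 h3)

end Pool.Agent.HMZ
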