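import Pool.Agent.HMZ.St
import Pool.Agent.AS.Ct1
import Pool.Agent.AS.Ct2
import Pool.Agent.AS.Eta

/-!
# HMZ: the vector field and the function `G` (`St_Dat`)
-/

set_option autoImplicit false
set_option linter.unusedVariables false

noncomputable section

namespace Pool.Agent.HMZ

open Complex Metric Set Filter Topology MeasureTheory Pool.Agent.AS
open scoped ComplexConjugate

theorem dat_sum {N : ℕ} {B : ℝ} (hB : 0 ≤ B) (c a : Fin (N + 1) → ℂ) (hc : ∀ i, ‖c i‖ ≤ 1)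
    (ha : ∀ i, ‖a i‖ ≤ B) : ‖∑ i, c i * a i‖ ≤ (N + 1) * B := by
  refine (norm_sum_le _ _).trans ?_
  calc ∑ i, ‖c i * a i‖ ≤ ∑ _i : Fin (N + 1), B := by
        refine Finset.sum_le_sum fun i _ => ?_
        rw [norm_mul]
        calc ‖c i‖ * ‖a i‖ ≤ 1 * B := by
              exact mul_le_mul (hc i) (ha i) (norm_nonneg _) zero_le_one
          _ = B := one_mul B
    _ = (N + 1) * B := by simp

theorem dat_cont {g : ℂ → ℂ} {C : ℝ} (h : ∀ z w, ‖g z - g w‖ ≤ C * ‖z - w‖ ^ (1 / 2 : ℝ)) :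
    Continuous g := by
  rw [continuous_iff_continuousAt]
  intro w
  rw [ContinuousAt, tendsto_iff_norm_sub_tendsto_zero]
  have h1 : Continuous fun z : ℂ => C * ‖z - w‖ ^ (1 / 2 : ℝ) := by
    refine continuous_const.mul ?_
    exact ((continuous_id.sub continuous_const).norm).rpow_const fun _ => Or.inr (by norm_num)
  have h2 : Tendsto (fun z : ℂ => C * ‖z - w‖ ^ (1 / 2 : ℝ)) (𝓝 w) (𝓝 0) := by
    have := h1.tendsto w
    simpa [Real.zero_rpow] using this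
  exact squeeze_zero (fun z => norm_nonneg _) (fun z => h z w) h2

theorem thm_Dat (hKil : St_Kil) (hInv : St_Inv) (hSpl : St_Spl) (hPol : St_Pol) : St_Dat := by
  intro f V b r R₁ lam hf hf' hV hVR hinj hdis hr hbV hR₁ hlam
  set R' : ℝ := lam * R₁ + 1 with hR'
  have hR'1 : 2 * R₁ + 1 ≤ R' := by nlinarith
  have hR'0 : 0 < R' := by linarith
  obtain ⟨Mf, hMf⟩ := (isCompact_closedBall (0 : ℂ) R').exists_bound_of_continuousOn
    hf.continuous.continuousOn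
  have hdc : Continuous (deriv f) := (hf.contDiff (n := 1)).continuous_deriv_one
  obtain ⟨M₁', hM₁'⟩ := (isCompact_closedBall (0 : ℂ) R').exists_bound_of_continuousOn
    hdc.continuousOn
  set M₁ : ℝ := max M₁' 0 with hM₁
  have hM₁0 : 0 ≤ M₁ := le_max_right _ _
  have hM₁b : ∀ z ∈ closedBall (0 : ℂ) R', ‖deriv f z‖ ≤ M₁ := fun z hz =>
    (hM₁' z hz).trans (le_max_left _ _)
  set ρ : ℝ := max R' Mf with hρ
  have hR'ρ : R' ≤ ρ := le_max_left _ _
  have hfρ : ∀ z ∈ ball (0 : ℂ) R', ‖f z‖ ≤ ρ := fun z hz =>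
    (hMf z (ball_subset_closedBall hz)).trans (le_max_right _ _)
  have hVρ : V ⊆ closedBall 0 ρ := hVR.trans (closedBall_subset_closedBall (by linarith))
  obtain ⟨C₁, hC₁0, hC₁⟩ := ctBound ρ
  obtain ⟨C₂, hC₂0, hC₂⟩ := ctHolder ρ (1 / 2) (by norm_num) (by norm_num)
  obtain ⟨C₃, hC₃0, hC₃⟩ := hSpl ρ
  have hb0 : b ∈ closedBall (0 : ℂ) R₁ := hVR (hbV (mem_closedBall_self (by linarith)))
  have hrR : r ≤ R₁ := by
    have h1 : b + (2 * r : ℝ) ∈ closedBall (0 : ℂ) R₁ := by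
      apply hVR
      apply hbV
      rw [mem_closedBall, dist_eq_norm, add_sub_cancel_left, Complex.norm_real,
        Real.norm_of_nonneg (by linarith)]
    have h2 : b - (2 * r : ℝ) ∈ closedBall (0 : ℂ) R₁ := by
      apply hVR
      apply hbV
      rw [mem_closedBall, dist_eq_norm, sub_sub_cancel_left, norm_neg, Complex.norm_real,
        Real.norm_of_nonneg (by linarith)]
    rw [mem_closedBall_zero_iff] at h1 h2
    have h3 : (((4 * r : ℝ)) : ℂ) = (b + (2 * r : ℝ)) - (b - (2 * r : ℝ)) := by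
      push_cast
      ring
    have h4 : ‖(((4 * r : ℝ)) : ℂ)‖ ≤ R₁ + R₁ := by
      rw [h3]
      exact (norm_sub_le _ _).trans (add_le_add h1 h2)
    rw [Complex.norm_real, Real.norm_of_nonneg (by linarith)] at h4
    linarith
  have hzb : ∀ z ∈ V, ‖z - b‖ ≤ 2 * R₁ := by
    intro z hz
    have h1 := hVR hz
    rw [mem_closedBall_zero_iff] at h1 hb0
    exact (norm_sub_le _ _).trans (by linarith)
  refine ⟨2 * C₁ * (1 + M₁) + C₁ + C₂ + C₃ + r ^ 2 + 1, by positivity, ?_⟩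
  set CC : ℝ := 2 * C₁ * (1 + M₁) + C₁ + C₂ + C₃ + r ^ 2 + 1 with hCC
  intro N
  have hN0 : (0 : ℝ) ≤ N + 1 := by positivity
  have hle1 : C₁ ≤ CC := by
    have : 0 ≤ 2 * C₁ * (1 + M₁) := by positivity
    have : 0 ≤ r ^ 2 := by positivity
    linarith
  have hle2 : C₂ ≤ CC := by
    have : 0 ≤ 2 * C₁ * (1 + M₁) := by positivity
    have : 0 ≤ r ^ 2 := by positivity
    linarith
  have hle3 : C₃ + r ^ 2 ≤ CC := by
    have : 0 ≤ 2 * C₁ * (1 + M₁) := by positivity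
    linarith
  have hle4 : 2 * C₁ * (1 + M₁) ≤ CC := by
    have : 0 ≤ r ^ 2 := by positivity
    linarith
  obtain ⟨β, P, hβ, hPd, hPz, hPk, hPj, hPM⟩ := hPol N b r hr
  have hD : ∀ k, closedBall (b + β k) r ⊆ closedBall b (2 * r) := by
    intro k z hz
    rw [mem_closedBall, dist_eq_norm] at hz ⊢
    calc ‖z - b‖ = ‖(z - (b + β k)) + β k‖ := by ring_nf
      _ ≤ ‖z - (b + β k)‖ + ‖β k‖ := norm_add_le _ _
      _ ≤ 2 * r := by rw [hβ k]; linarith
  have hν : ∀ k, ∃ ν : ℂ → ℂ, Adm ν ρ ∧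
      (∀ z ∈ ball (0 : ℂ) R', ν z * deriv f z = ν (f z) * conj (deriv f z)) ∧
      ∀ z ∈ V, ν z = (closedBall (b + β k) r).indicator (fun _ => 1) z := fun k =>
    hInv f V (closedBall (b + β k) r) R' ρ hf hV hinj hdis measurableSet_closedBall hVρ hR'ρ hfρ
  choose ν hνA hνI hνV using hν
  have hS : ∀ k, ∃ S : ℂ → ℂ, DifferentiableOn ℂ S V ∧ (∀ z, ‖S z‖ ≤ C₃) ∧
      ∀ z ∉ closedBall (b + β k) r, ct (ν k) z = S z + (r : ℂ) ^ 2 / (z - (b + β k)) := fun k =>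
    hC₃ (ν k) V (b + β k) r (hνA k) hV hr ((hD k).trans hbV) (hνV k)
  choose S hSd hSb hSe using hS
  have hηd : ∀ k, DifferentiableOn ℂ (fun z => ct (ν k) (f z) - deriv f z * ct (ν k) z)
      (ball 0 R') := fun k => etaHol ctHolder ctHol ρ R' f (ν k) hf hf' (hνA k) (hνI k)
  obtain ⟨c, hc1, ⟨k₀, hk₀⟩, hcB⟩ := hKil N R' (fun k z => ct (ν k) (f z) - deriv f z * ct (ν k) z)
    hR'0 hηd
  set ξ : ℂ → ℂ := fun z => ∑ k, c k * ct (ν k) z with hξ
  have hξH : ∀ z w, ‖ξ z - ξ w‖ ≤ CC * (N + 1) * ‖z - w‖ ^ (1 / 2 : ℝ) := by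
    intro z w
    have h1 : ξ z - ξ w = ∑ k, c k * (ct (ν k) z - ct (ν k) w) := by
      simp only [hξ]
      rw [← Finset.sum_sub_distrib]
      exact Finset.sum_congr rfl fun k _ => by ring
    have h2 : (0 : ℝ) ≤ ‖z - w‖ ^ (1 / 2 : ℝ) := by positivity
    rw [h1]
    refine (dat_sum (mul_nonneg hC₂0.le h2) c _ hc1 fun k => hC₂ (ν k) (hνA k) z w).trans ?_
    calc (N + 1 : ℝ) * (C₂ * ‖z - w‖ ^ (1 / 2 : ℝ)) = C₂ * (N + 1) * ‖z - w‖ ^ (1 / 2 : ℝ) := by ring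
      _ ≤ _ := by gcongr
  set W : ℂ → ℂ := fun z => (z - b) ^ (N + 1) - (r : ℂ) ^ (N + 1) with hW
  set G : ℂ → ℂ := fun z => W z * ∑ k, c k * S k z + (r : ℂ) ^ 2 * ∑ k, c k * P k z with hG
  have h4R : (0 : ℝ) ≤ (4 * R₁) ^ (N + 1) := by positivity
  have hWb : ∀ z ∈ V, ‖W z‖ ≤ (4 * R₁) ^ (N + 1) := by
    intro z hz
    have h1 : ‖z - b‖ ^ (N + 1) ≤ (2 * R₁) ^ (N + 1) :=
      pow_le_pow_left₀ (norm_nonneg _) (hzb z hz) _
    have h2 : r ^ (N + 1) ≤ (2 * R₁) ^ (N + 1) := pow_le_pow_left₀ hr.le (by linarith) _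
    have h3 : (2 : ℝ) ≤ 2 ^ (N + 1) := by
      have : (2 : ℝ) ^ 1 ≤ 2 ^ (N + 1) := pow_le_pow_right₀ (by norm_num) (by omega)
      simpa using this
    have h5 : (0 : ℝ) ≤ (2 * R₁) ^ (N + 1) := by positivity
    calc ‖W z‖ ≤ ‖(z - b) ^ (N + 1)‖ + ‖(r : ℂ) ^ (N + 1)‖ := norm_sub_le _ _
      _ = ‖z - b‖ ^ (N + 1) + r ^ (N + 1) := by
        rw [norm_pow, norm_pow, Complex.norm_real, Real.norm_of_nonneg hr.le]
      _ ≤ 2 * (2 * R₁) ^ (N + 1) := by linarith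
      _ ≤ 2 ^ (N + 1) * (2 * R₁) ^ (N + 1) := by gcongr
      _ = (4 * R₁) ^ (N + 1) := by rw [← mul_pow]; ring
  have hPb : ∀ k, ∀ z ∈ V, ‖P k z‖ ≤ (4 * R₁) ^ (N + 1) := by
    intro k z hz
    have h1 := hPM k z (2 * R₁) (hzb z hz) (by linarith)
    have h2 : ((N : ℝ) + 1) ≤ 2 ^ (N + 1) := by
      have := (Nat.lt_two_pow_self (n := N + 1)).le
      exact_mod_cast this
    have h3 : (2 * R₁) ^ N ≤ (2 * R₁) ^ (N + 1) := pow_le_pow_right₀ (by linarith) (by omega)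
    calc ‖P k z‖ ≤ (N + 1) * (2 * R₁) ^ N := h1
      _ ≤ 2 ^ (N + 1) * (2 * R₁) ^ (N + 1) := by gcongr
      _ = (4 * R₁) ^ (N + 1) := by rw [← mul_pow]; ring
  refine ⟨ξ, G, b + β k₀, dat_cont hξH, ?_, hξH, ?_, ?_, ?_, ?_, ?_, ?_⟩
  · intro z
    refine (dat_sum hC₁0.le c _ hc1 fun k => hC₁ (ν k) (hνA k) z).trans ?_
    rw [mul_comm]
    gcongr
  · intro z hz
    have h1 : ξ (f z) - deriv f z * ξ z =
        ∑ k, c k * (ct (ν k) (f z) - deriv f z * ct (ν k) z) := by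
      simp only [hξ]
      rw [Finset.mul_sum, ← Finset.sum_sub_distrib]
      exact Finset.sum_congr rfl fun k _ => by ring
    have h2 := hcB ((N + 1) * (C₁ * (1 + M₁))) (by
      intro w hw
      refine dat_sum (by positivity) c _ hc1 fun k => ?_
      refine (norm_sub_le _ _).trans ?_
      rw [norm_mul]
      have h3 := hC₁ (ν k) (hνA k) (f w)
      have h4 := hC₁ (ν k) (hνA k) w
      have h5 := hM₁b w (ball_subset_closedBall hw)
      calc ‖ct (ν k) (f w)‖ + ‖deriv f w‖ * ‖ct (ν k) w‖ ≤ C₁ + M₁ * C₁ := by gcongr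
        _ = C₁ * (1 + M₁) := by ring) z (by linarith)
    rw [h1]
    refine h2.trans ?_
    have h3 : ‖z‖ / R' ≤ lam⁻¹ := by
      rw [div_le_iff₀ hR'0, hR']
      have : lam⁻¹ * (lam * R₁ + 1) = R₁ + lam⁻¹ := by
        field_simp
      rw [this]
      have : 0 < lam⁻¹ := by positivity
      linarith
    have h4 : (‖z‖ / R') ^ N ≤ lam⁻¹ ^ N := pow_le_pow_left₀ (by positivity) h3 N
    have h5 : (0 : ℝ) ≤ lam⁻¹ ^ N := by positivity
    calc 2 * ((N + 1) * (C₁ * (1 + M₁))) * (‖z‖ / R') ^ N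
        ≤ 2 * ((N + 1) * (C₁ * (1 + M₁))) * lam⁻¹ ^ N := by gcongr
      _ = (2 * C₁ * (1 + M₁)) * (N + 1) * lam⁻¹ ^ N := by ring
      _ ≤ CC * (N + 1) * lam⁻¹ ^ N := by gcongr
  · have hWd : Differentiable ℂ W := by
      simp only [hW]
      fun_prop
    refine DifferentiableOn.fun_add (DifferentiableOn.fun_mul hWd.differentiableOn ?_)
      (DifferentiableOn.const_mul ?_ _)
    · exact DifferentiableOn.fun_sum fun k _ => (hSd k).const_mul _
    · exact DifferentiableOn.fun_sum fun k _ => ((hPd k).differentiableOn).const_mul _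
  · intro z hz
    have h1 := dat_sum hC₃0.le c (fun k => S k z) hc1 fun k => hSb k z
    have h2 := dat_sum h4R c (fun k => P k z) hc1 fun k => hPb k z hz
    calc ‖G z‖ ≤ ‖W z * ∑ k, c k * S k z‖ + ‖(r : ℂ) ^ 2 * ∑ k, c k * P k z‖ := norm_add_le _ _
      _ = ‖W z‖ * ‖∑ k, c k * S k z‖ + r ^ 2 * ‖∑ k, c k * P k z‖ := by
        rw [norm_mul, norm_mul, norm_pow, Complex.norm_real, Real.norm_of_nonneg hr.le]
      _ ≤ (4 * R₁) ^ (N + 1) * ((N + 1) * C₃) + r ^ 2 * ((N + 1) * (4 * R₁) ^ (N + 1)) := by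
        have := hWb z hz
        gcongr
      _ = (C₃ + r ^ 2) * (N + 1) * (4 * R₁) ^ (N + 1) := by ring
      _ ≤ CC * (N + 1) * (4 * R₁) ^ (N + 1) := by gcongr
  · intro z hz hzn
    have h1 : G z = W z * ξ z := by
      simp only [hG, hξ]
      rw [Finset.mul_sum, Finset.mul_sum, Finset.mul_sum, ← Finset.sum_add_distrib]
      refine Finset.sum_congr rfl fun k _ => ?_
      have h2 : z ∉ closedBall (b + β k) r := fun h => hzn (hD k h)
      have h3 : z - (b + β k) ≠ 0 := by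
        intro h
        apply h2
        rw [mem_closedBall, dist_eq_norm, h, norm_zero]
        exact hr.le
      have h4 : W z = (z - (b + β k)) * P k z := (hPz k z).symm
      have h5 : W z * (c k * ((r : ℂ) ^ 2 / (z - (b + β k)))) = (r : ℂ) ^ 2 * (c k * P k z) := by
        rw [h4]
        field_simp
      rw [hSe k z h2, ← h5]
      ring
    rw [h1, norm_mul]
    exact mul_le_mul_of_nonneg_right (hWb z hz) (norm_nonneg _)
  · rw [mem_closedBall, dist_eq_norm, add_sub_cancel_left, hβ]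
    linarith
  · have h1 : W (b + β k₀) = 0 := by
      have := hPz k₀ (b + β k₀)
      rw [sub_self, zero_mul] at this
      exact this.symm
    have h2 : ∑ k, c k * P k (b + β k₀) = c k₀ * P k₀ (b + β k₀) := by
      rw [Finset.sum_eq_single k₀]
      · intro j _ hj
        rw [hPj k₀ j hj, mul_zero]
      · intro h
        exact absurd (Finset.mem_univ _) h
    have h3 : G (b + β k₀) = (r : ℂ) ^ 2 * (c k₀ * P k₀ (b + β k₀)) := by
      simp only [hG]
      rw [h1, h2, zero_mul, zero_add]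
    rw [h3, norm_mul, norm_mul, hk₀, hPk, norm_pow, Complex.norm_real,
      Real.norm_of_nonneg hr.le]
    have h4 : 0 ≤ r ^ (N + 2) := by positivity
    have h5 : (0 : ℝ) ≤ N := by positivity
    calc r ^ (N + 2) ≤ (N + 1) * r ^ (N + 2) := by nlinarith
      _ = r ^ 2 * (1 * ((N + 1) * r ^ N)) := by ring

end Pool.Agent.HMZ
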