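import Pool.Agent.HMZ.St

/-!
# HMZ, module Dsc: the Cauchy transform of a disc
-/

set_option autoImplicit false
set_option linter.unusedVariables false

noncomputable section

namespace Pool.Agent.HMZ

open Complex Metric Set Filter Topology MeasureTheory Pool.Agent.AS

theorem dsc_ne {c x v : ℂ} (h : ‖v‖ < ‖c‖) (hx : ‖x‖ ≤ 1) : c - x * v ≠ 0 := by
  intro h0
  have h1 : c = x * v := sub_eq_zero.1 h0
  have h2 : ‖c‖ ≤ ‖v‖ := by
    rw [h1, norm_mul]
    calc ‖x‖ * ‖v‖ ≤ 1 * ‖v‖ := mul_le_mul_of_nonneg_right hx (norm_nonneg v)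
      _ = ‖v‖ := one_mul _
  exact absurd h (not_lt.2 h2)

theorem dsc_avg (c v : ℂ) (h : ‖v‖ < ‖c‖) :
    ∫ θ in (0 : ℝ)..2 * Real.pi, (c - circleMap 0 1 θ * v)⁻¹ = 2 * Real.pi * c⁻¹ := by
  have hd : DiffContOnCl ℂ (fun x : ℂ => (c - x * v)⁻¹) (ball 0 |(1 : ℝ)|) := by
    refine DifferentiableOn.diffContOnCl ?_
    rw [abs_one, closure_ball (0 : ℂ) one_ne_zero]
    intro x hx
    have hx1 : ‖x‖ ≤ 1 := mem_closedBall_zero_iff.1 hx
    refine DifferentiableAt.differentiableWithinAt ?_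
    exact DifferentiableAt.inv (by fun_prop) (dsc_ne h hx1)
  have h1 := hd.circleAverage
  rw [Real.circleAverage] at h1
  simp only [zero_mul, sub_zero] at h1
  have h2 : (2 * Real.pi : ℝ) ≠ 0 := by positivity
  have h3 := congrArg (fun z : ℂ => (2 * Real.pi : ℝ) • z) h1
  simp only [smul_smul, mul_inv_cancel₀ h2, one_smul] at h3
  rw [h3, real_smul]
  push_cast
  ring

theorem dsc_rot (c : ℂ) (a θ : ℝ) :
    ∫ v in closedBall (0 : ℂ) a, (c - circleMap 0 1 θ * v)⁻¹ =
      ∫ v in closedBall (0 : ℂ) a, (c - v)⁻¹ := by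
  have hm : circleMap 0 1 θ = (Circle.exp θ : ℂ) := by
    rw [circleMap, Circle.coe_exp]
    simp
  have hpre : (rotation (Circle.exp θ)) ⁻¹' (closedBall (0 : ℂ) a) = closedBall (0 : ℂ) a := by
    ext v
    rw [mem_preimage, mem_closedBall_zero_iff, mem_closedBall_zero_iff,
      LinearIsometryEquiv.norm_map]
  have hmp := (rotation (Circle.exp θ)).measurePreserving
  have h1 := hmp.setIntegral_preimage_emb
    (rotation (Circle.exp θ)).toHomeomorph.measurableEmbedding (fun v : ℂ => (c - v)⁻¹)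
    (closedBall (0 : ℂ) a)
  rw [hpre] at h1
  rw [← h1, hm]
  rfl

theorem dsc_int (c : ℂ) (a : ℝ) (ha : 0 < a) (hc : a < ‖c‖) :
    ∫ v in closedBall (0 : ℂ) a, (c - v)⁻¹ = Real.pi * (a : ℂ) ^ 2 / c := by
  have hlt : ∀ v ∈ closedBall (0 : ℂ) a, ‖v‖ < ‖c‖ := fun v hv =>
    lt_of_le_of_lt (mem_closedBall_zero_iff.1 hv) hc
  have hcirc : ∀ θ : ℝ, ‖circleMap 0 1 θ‖ ≤ 1 := fun θ => by
    rw [norm_circleMap_zero, abs_one]
  have hcont : ContinuousOn (Function.uncurry fun (θ : ℝ) (v : ℂ) => (c - circleMap 0 1 θ * v)⁻¹)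
      (Icc 0 (2 * Real.pi) ×ˢ closedBall (0 : ℂ) a) := by
    refine ContinuousOn.inv₀ ?_ ?_
    · refine Continuous.continuousOn ?_
      have h1 : Continuous fun p : ℝ × ℂ => circleMap 0 1 p.1 :=
        (continuous_circleMap 0 1).comp continuous_fst
      exact continuous_const.sub (h1.mul continuous_snd)
    · rintro ⟨θ, v⟩ ⟨_, hv⟩
      exact dsc_ne (hlt v hv) (hcirc θ)
  have hint : Integrable (Function.uncurry fun (θ : ℝ) (v : ℂ) => (c - circleMap 0 1 θ * v)⁻¹)
      ((volume.restrict (Set.uIoc 0 (2 * Real.pi))).prod (volume.restrict (closedBall (0 : ℂ) a))) := by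
    rw [Measure.prod_restrict, ← Measure.volume_eq_prod]
    have hcpt : IsCompact (Icc 0 (2 * Real.pi) ×ˢ closedBall (0 : ℂ) a) :=
      isCompact_Icc.prod (isCompact_closedBall 0 a)
    refine (hcont.integrableOn_compact hcpt).mono_set ?_
    refine prod_mono ?_ le_rfl
    rw [uIoc_of_le (by positivity)]
    exact Ioc_subset_Icc_self
  have hswap := intervalIntegral_integral_swap hint
  simp only [dsc_rot c a] at hswap
  rw [intervalIntegral.integral_const] at hswap
  have h2 : ∫ v in closedBall (0 : ℂ) a, (∫ θ in (0 : ℝ)..2 * Real.pi,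
      (c - circleMap 0 1 θ * v)⁻¹) = ∫ v in closedBall (0 : ℂ) a, (2 * Real.pi * c⁻¹ : ℂ) :=
    setIntegral_congr_fun measurableSet_closedBall fun v hv => dsc_avg c v (hlt v hv)
  rw [h2, setIntegral_const] at hswap
  have hvol : volume.real (closedBall (0 : ℂ) a) = a ^ 2 * Real.pi := by
    rw [Measure.real, Complex.volume_closedBall, ENNReal.toReal_mul, ENNReal.toReal_pow,
      ENNReal.toReal_ofReal ha.le]
    rfl
  rw [hvol, real_smul, real_smul] at hswap
  have hpi : ((2 * Real.pi : ℝ) : ℂ) ≠ 0 := by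
    rw [Ne, Complex.ofReal_eq_zero]
    positivity
  have hc0 : c ≠ 0 := by
    intro h0
    rw [h0, norm_zero] at hc
    exact absurd hc (not_lt.2 ha.le)
  apply mul_left_cancel₀ hpi
  rw [sub_zero] at hswap
  rw [hswap]
  push_cast
  field_simp

theorem thm_Dsc : St_Dsc := by
  intro w z a ha hz
  have hc : a < ‖z - w‖ := by
    rw [mem_closedBall, not_le, dist_eq_norm] at hz
    exact hz
  have h1 : ∫ u, ((closedBall w a).indicator fun _ => (1 : ℂ)) u / (z - u) =
      ∫ v in closedBall (0 : ℂ) a, ((z - w) - v)⁻¹ := by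
    rw [← integral_indicator measurableSet_closedBall,
      ← integral_add_right_eq_self (μ := volume) (fun u => ((closedBall w a).indicator
        fun _ => (1 : ℂ)) u / (z - u)) w]
    congr 1
    funext v
    by_cases hv : v ∈ closedBall (0 : ℂ) a
    · have hv' : v + w ∈ closedBall w a := by
        rw [mem_closedBall, dist_eq_norm, add_sub_cancel_right]
        exact mem_closedBall_zero_iff.1 hv
      rw [indicator_of_mem hv, indicator_of_mem hv', one_div]
      congr 1
      ring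
    · have hv' : v + w ∉ closedBall w a := by
        rw [mem_closedBall, dist_eq_norm, add_sub_cancel_right]
        exact fun h => hv (mem_closedBall_zero_iff.2 h)
      rw [indicator_of_notMem hv, indicator_of_notMem hv', zero_div]
  rw [ct, h1, dsc_int (z - w) a ha hc]
  have hpi : (Real.pi : ℂ) ≠ 0 := by
    rw [Ne, Complex.ofReal_eq_zero]
    exact Real.pi_ne_zero
  field_simp

end Pool.Agent.HMZ
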