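import Pool.Agent.HMZ.St

/-!
# HMZ, Fin: from the modules to the theorem (helper41)
-/

set_option autoImplicit false

noncomputable section

namespace Pool.Agent.HMZ

open Complex Metric Set Filter Topology MeasureTheory Pool.Agent.AS

/-- a nonconstant holomorphic function has a nonzero derivative somewhere -/
theorem fin_deriv {ψ : ℂ → ℂ} (hψ : DifferentiableOn ℂ ψ (ball 0 1))
    (hc : ∃ x ∈ ball (0 : ℂ) 1, ∃ y ∈ ball (0 : ℂ) 1, ψ x ≠ ψ y) :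
    ∃ w ∈ ball (0 : ℂ) 1, deriv ψ w ≠ 0 := by
  by_contra hcon
  push Not at hcon
  obtain ⟨x, hx, y, hy, hxy⟩ := hc
  apply hxy
  exact isOpen_ball.is_const_of_deriv_eq_zero (convex_ball 0 1).isPreconnected hψ hcon hx hy

theorem fin_gen (hGen : St_Gen) (f : ℂ → ℂ) (R : ℝ) (V : Set ℂ) (hf : Differentiable ℂ f)
    (hnc : ∃ z, deriv f z ≠ 0) (hV : Comp f R V)
    (hd : ∀ n m : ℕ, n ≠ m → Disjoint (f^[n] '' V) (f^[m] '' V)) (ψ : ℂ → ℂ)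
    (hψ : DifferentiableOn ℂ ψ (ball 0 1)) (hm : MapsTo ψ (ball 0 1) V)
    (hw : ∃ w ∈ ball (0 : ℂ) 1, deriv ψ w ≠ 0) (R₁ p : ℝ) :
    Tendsto (fun L : ℝ => volume {t ∈ Icc 0 (2 * Real.pi) | ∃ ζ ∈ frontier V,
      Tendsto (fun s : ℝ => ψ (s * exp (t * I))) (𝓝[<] 1) (𝓝 ζ) ∧
      ∃ w ∈ ball ζ (1 / L), ∃ n : ℕ, (∀ j < n, ‖f^[j] w‖ < R₁) ∧ L ≤ ‖deriv (f^[n]) w‖ ∧
        ∑ j ∈ Finset.range n, ‖deriv (f^[j + 1]) w‖⁻¹ ≤ L ^ p}) atTop (𝓝 0) := by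
  rw [ENNReal.tendsto_nhds_zero]
  intro h hh
  by_cases htop : h = ⊤
  · rw [htop]; exact Eventually.of_forall fun _ => le_top
  obtain ⟨L₀, hL₀⟩ := hGen f R (max R₁ (max R 1)) V hf hnc hV hd
    ((le_max_left _ _).trans (le_max_right _ _)) ((le_max_right _ _).trans (le_max_right _ _))
    ψ hψ hm hw (max p 0) h.toReal (le_max_right _ _) (ENNReal.toReal_pos hh.ne' htop)
  filter_upwards [eventually_ge_atTop (max L₀ 1)] with L hL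
  have hL1 : 1 ≤ L := (le_max_right _ _).trans hL
  have h1 := hL₀ L ((le_max_left _ _).trans hL)
  rw [ENNReal.ofReal_toReal htop] at h1
  refine (measure_mono ?_).trans h1
  rintro t ⟨ht, ζ, hζ, hrl, w, hw, n, hn, hLn, hs⟩
  refine ⟨ht, ζ, hζ, hrl, w, hw, n, fun j hj => (hn j hj).trans_le (le_max_left _ _), ?_, ?_⟩
  · rw [one_mul]; exact hLn
  · rw [one_mul]
    exact hs.trans (Real.rpow_le_rpow_of_exponent_le hL1 (le_max_left _ _))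

theorem fin_sum (hSum : St_Sum) (f : ℂ → ℂ) (R : ℝ) (V : Set ℂ) (hf : Differentiable ℂ f)
    (hnc : ∃ z, deriv f z ≠ 0) (hV : Comp f R V)
    (hd : ∀ n m : ℕ, n ≠ m → Disjoint (f^[n] '' V) (f^[m] '' V)) (ψ : ℂ → ℂ)
    (hψ : DifferentiableOn ℂ ψ (ball 0 1)) (hm : MapsTo ψ (ball 0 1) V)
    (hw : ∃ w ∈ ball (0 : ℂ) 1, deriv ψ w ≠ 0) :
    ∀ᵐ t : ℝ ∂(volume.restrict (Icc 0 (2 * Real.pi))), ∀ ζ ∈ frontier V,
      Tendsto (fun s : ℝ => ψ (s * exp (t * I))) (𝓝[<] 1) (𝓝 ζ) →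
      (∀ n : ℕ, deriv (f^[n]) ζ ≠ 0) →
      ∀ δ > (0 : ℝ), ¬ Summable fun n : ℕ => ‖deriv (f^[n]) ζ‖ ^ (-δ) := by
  rw [ae_restrict_iff' measurableSet_Icc, ae_iff]
  refine measure_mono_null ?_ (hSum f R V hf hnc hV hd ψ hψ hm hw)
  intro t ht
  have ht' : ¬ (t ∈ Icc 0 (2 * Real.pi) → ∀ ζ ∈ frontier V,
      Tendsto (fun s : ℝ => ψ (s * exp (t * I))) (𝓝[<] 1) (𝓝 ζ) →
      (∀ n : ℕ, deriv (f^[n]) ζ ≠ 0) →
      ∀ δ > (0 : ℝ), ¬ Summable fun n : ℕ => ‖deriv (f^[n]) ζ‖ ^ (-δ)) := ht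
  push Not at ht'
  obtain ⟨h1, ζ, hζ, hrl, hn, δ, hδ, hs⟩ := ht'
  exact ⟨h1, ζ, hζ, hrl, hn, δ, hδ, hs⟩

end Pool.Agent.HMZ
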