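import Pool.Agent.HMZ.St
import Pool.Agent.AS.Local
import Pool.Agent.AS.FatA

/-!
# HMZ, module Gen: the general case (MP_a853b7_an; architect helper41, proof written by helper6)
-/

set_option autoImplicit false

noncomputable section

namespace Pool.Agent.HMZ

open Complex Metric Set Filter Topology MeasureTheory Pool.Agent.AS
open scoped ComplexConjugate

/-- The Fatou set is completely invariant under the iterates. -/
theorem gen_fat {f : ℂ → ℂ} (hf : Differentiable ℂ f) (hnc : ∃ z, deriv f z ≠ 0) (m : ℕ) (z : ℂ) :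
    f^[m] z ∈ Fat f ↔ z ∈ Fat f := by
  induction m with
  | zero => simp
  | succ m ih =>
    rw [Function.iterate_succ_apply', fatInv f hf hnc, ih]

/-- The chain rule for iterates. -/
theorem gen_chain {f : ℂ → ℂ} (hf : Differentiable ℂ f) (k m : ℕ) (w : ℂ) :
    deriv (f^[k + m]) w = deriv (f^[k]) (f^[m] w) * deriv (f^[m]) w := by
  have h1 : f^[k + m] = f^[k] ∘ f^[m] := Function.iterate_add f k m
  rw [h1]
  exact deriv_comp w ((hf.iterate k) _) ((hf.iterate m) w)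

/-- The derivative of the composition is nonzero somewhere. -/
theorem gen_der {g ψ : ℂ → ℂ} (hg : Differentiable ℂ g) (hne : ∃ z, deriv g z ≠ 0)
    (hψ : DifferentiableOn ℂ ψ (ball 0 1)) (hder : ∃ w ∈ ball (0 : ℂ) 1, deriv ψ w ≠ 0) :
    ∃ w ∈ ball (0 : ℂ) 1, deriv (fun w => g (ψ w)) w ≠ 0 := by
  obtain ⟨w₀, hw₀, hd⟩ := hder
  by_contra hcon
  push Not at hcon
  have hball : ball (0 : ℂ) 1 ∈ 𝓝 w₀ := isOpen_ball.mem_nhds hw₀
  have han : AnalyticAt ℂ ψ w₀ := hψ.analyticAt hball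
  have hst : HasStrictDerivAt ψ (deriv ψ w₀) w₀ := han.hasStrictDerivAt
  have hmap : map ψ (𝓝 w₀) = 𝓝 (ψ w₀) := hst.map_nhds_eq hd
  have hcont : ContinuousAt (deriv ψ) w₀ := han.deriv.continuousAt
  have h1 : ∀ᶠ w in 𝓝 w₀, deriv ψ w ≠ 0 := hcont.eventually_ne hd
  have h2 : ∀ᶠ w in 𝓝 w₀, deriv g (ψ w) = 0 := by
    filter_upwards [h1, hball] with w hw hwb
    have h3 : deriv (fun w => g (ψ w)) w = deriv g (ψ w) * deriv ψ w := by
      have := deriv_comp w (h₂ := g) (h := ψ) (hg _) (hψ.differentiableAt (isOpen_ball.mem_nhds hwb))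
      exact this
    have h4 := hcon w hwb
    rw [h3] at h4
    exact (mul_eq_zero.1 h4).resolve_right hw
  have h5 : ∀ᶠ z in 𝓝 (ψ w₀), deriv g z = 0 := by
    rw [← hmap, eventually_map]
    exact h2
  have hgd : Differentiable ℂ (deriv g) := by
    intro z
    exact ((hg.analyticAt z).deriv).differentiableAt
  have h6 := local_isolated hgd hne (ψ w₀)
  have h7 : ∀ᶠ z in 𝓝[≠] (ψ w₀), False := by
    filter_upwards [h6, nhdsWithin_le_nhds h5] with z hz hz'
    exact hz hz'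
  exact (h7.exists).elim fun _ h => h

/-- Bad points are mapped to bad points. -/
theorem gen_bad {f : ℂ → ℂ} (hf : Differentiable ℂ f) {R R₁ M₂ L p : ℝ} {m : ℕ} {ζ : ℂ}
    (hζ : ‖ζ‖ ≤ R) (hM : 1 ≤ M₂)
    (hM₂ : ∀ i ≤ m, ∀ z ∈ closedBall (0 : ℂ) (R + 1), ‖deriv (f^[i]) z‖ ≤ M₂) (hL : M₂ < L)
    (hb : BadP f R₁ 1 L p ζ) : BadP f R₁ (M₂ + 1) L p (f^[m] ζ) := by
  obtain ⟨w, hw, n, hj, hn, hs⟩ := hb
  have hL1 : 1 < L := lt_of_le_of_lt hM hL
  have hL0 : 0 < L := by linarith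
  rw [one_mul] at hn hs
  rw [mem_ball, dist_eq_norm] at hw
  have hwK : w ∈ closedBall (0 : ℂ) (R + 1) := by
    rw [mem_closedBall_zero_iff]
    have h1 : 1 / L ≤ 1 := by
      rw [div_le_one hL0]
      exact hL1.le
    calc ‖w‖ = ‖(w - ζ) + ζ‖ := by ring_nf
      _ ≤ ‖w - ζ‖ + ‖ζ‖ := norm_add_le _ _
      _ ≤ R + 1 := by linarith
  have hζK : ζ ∈ closedBall (0 : ℂ) (R + 1) := by
    rw [mem_closedBall_zero_iff]
    linarith
  have hnm : m < n := by
    by_contra hcon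
    push Not at hcon
    have := hM₂ n hcon w hwK
    linarith
  obtain ⟨k, rfl⟩ := Nat.exists_eq_add_of_le' hnm.le
  have hch := gen_chain hf k m w
  have hD : deriv (f^[m]) w ≠ 0 := by
    intro h0
    rw [hch, h0, mul_zero, norm_zero] at hn
    linarith
  have hDM : ‖deriv (f^[m]) w‖ ≤ M₂ := hM₂ m le_rfl w hwK
  have hDpos : 0 < ‖deriv (f^[m]) w‖ := norm_pos_iff.2 hD
  refine ⟨f^[m] w, ?_, k, ?_, ?_, ?_⟩
  · rw [mem_ball, dist_eq_norm]
    have h1 : ‖f^[m] w - f^[m] ζ‖ ≤ M₂ * ‖w - ζ‖ :=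
      (convex_closedBall (0 : ℂ) (R + 1)).norm_image_sub_le_of_norm_deriv_le
        (fun x _ => (hf.iterate m) x) (fun x hx => hM₂ m le_rfl x hx) hζK hwK
    have h2 : M₂ * ‖w - ζ‖ ≤ M₂ * (1 / L) := by
      apply mul_le_mul_of_nonneg_left hw.le
      linarith
    have h3 : M₂ * (1 / L) < (M₂ + 1) / L := by
      rw [mul_one_div]
      exact div_lt_div_of_pos_right (by linarith) hL0
    linarith
  · intro j hjk
    rw [← Function.iterate_add_apply]
    exact hj (j + m) (by omega)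
  · have h1 : L ≤ ‖deriv (f^[k]) (f^[m] w)‖ * ‖deriv (f^[m]) w‖ := by
      rw [← norm_mul, ← hch]
      exact hn
    have h2 : ‖deriv (f^[k]) (f^[m] w)‖ * ‖deriv (f^[m]) w‖ ≤
        ‖deriv (f^[k]) (f^[m] w)‖ * (M₂ + 1) := by
      apply mul_le_mul_of_nonneg_left _ (norm_nonneg _)
      linarith
    rw [mul_comm (M₂ + 1)]
    linarith
  · have h1 : ∀ j, ‖deriv (f^[j + 1]) (f^[m] w)‖⁻¹ =
        ‖deriv (f^[m]) w‖ * ‖deriv (f^[m + j + 1]) w‖⁻¹ := by
      intro j
      have h2 : m + j + 1 = (j + 1) + m := by omega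
      rw [h2, gen_chain hf (j + 1) m w, norm_mul, mul_inv]
      field_simp
    have h3 : ∑ j ∈ Finset.range k, ‖deriv (f^[j + 1]) (f^[m] w)‖⁻¹ =
        ‖deriv (f^[m]) w‖ * ∑ j ∈ Finset.range k, ‖deriv (f^[m + j + 1]) w‖⁻¹ := by
      rw [Finset.mul_sum]
      exact Finset.sum_congr rfl fun j _ => h1 j
    have h4 : ∑ j ∈ Finset.range k, ‖deriv (f^[m + j + 1]) w‖⁻¹ ≤
        ∑ j ∈ Finset.range (k + m), ‖deriv (f^[j + 1]) w‖⁻¹ := by
      rw [add_comm k m, Finset.sum_range_add]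
      have : 0 ≤ ∑ j ∈ Finset.range m, ‖deriv (f^[j + 1]) w‖⁻¹ :=
        Finset.sum_nonneg fun j _ => inv_nonneg.2 (norm_nonneg _)
      linarith
    have h5 : 0 ≤ ∑ j ∈ Finset.range k, ‖deriv (f^[m + j + 1]) w‖⁻¹ :=
      Finset.sum_nonneg fun j _ => inv_nonneg.2 (norm_nonneg _)
    rw [h3]
    have h6 : 0 ≤ L ^ p := (Real.rpow_pos_of_pos hL0 p).le
    calc ‖deriv (f^[m]) w‖ * ∑ j ∈ Finset.range k, ‖deriv (f^[m + j + 1]) w‖⁻¹
        ≤ (M₂ + 1) * L ^ p := by
          apply mul_le_mul (by linarith) (h4.trans hs) h5 (by linarith)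

theorem thm_Gen (hTail : St_Tail) (hCor : St_Cor) : St_Gen := by
  intro f R R₁ V hf hnc hV hdis hRR h1R ψ hψ hmap hder p h hp hh
  obtain ⟨m, hcm, hinj⟩ := hTail f R V hf hnc hV hdis
  have hfm : Differentiable ℂ (f^[m]) := hf.iterate m
  -- the derivative of `f^[m]` is not identically zero
  have hfmne : ∃ z, deriv (f^[m]) z ≠ 0 := by
    by_contra hcon
    push Not at hcon
    obtain ⟨x, hx⟩ := hV.conn.nonempty
    have hconst : ∀ z, f^[m] z = f^[m] x := fun z => is_const_of_deriv_eq_zero hfm hcon z x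
    have h1 : f^[m] '' V = {f^[m] x} := by
      apply Subset.antisymm
      · rintro _ ⟨z, -, rfl⟩
        exact hconst z
      · rintro _ rfl
        exact ⟨x, hx, rfl⟩
    have h2 := hcm.op
    rw [h1] at h2
    exact not_isOpen_singleton _ h2
  -- the bound of the derivatives
  obtain ⟨M₂, hM, hM₂⟩ : ∃ M₂ : ℝ, 1 ≤ M₂ ∧ ∀ i ≤ m, ∀ z ∈ closedBall (0 : ℂ) (R + 1),
      ‖deriv (f^[i]) z‖ ≤ M₂ := by
    have h1 : ∀ i : ℕ, ∃ C : ℝ, ∀ z ∈ closedBall (0 : ℂ) (R + 1), ‖deriv (f^[i]) z‖ ≤ C := by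
      intro i
      have hc : Continuous (deriv (f^[i])) := by
        have : Differentiable ℂ (deriv (f^[i])) := by
          intro z
          exact (((hf.iterate i).analyticAt z).deriv).differentiableAt
        exact this.continuous
      exact (isCompact_closedBall (0 : ℂ) (R + 1)).exists_bound_of_continuousOn hc.continuousOn
    choose C hC using h1
    refine ⟨1 + ∑ i ∈ Finset.range (m + 1), |C i|, ?_, ?_⟩
    · have : 0 ≤ ∑ i ∈ Finset.range (m + 1), |C i| := Finset.sum_nonneg fun i _ => abs_nonneg _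
      linarith
    · intro i hi z hz
      have h2 : |C i| ≤ ∑ i ∈ Finset.range (m + 1), |C i| :=
        Finset.single_le_sum (f := fun i => |C i|) (fun i _ => abs_nonneg _)
          (Finset.mem_range.2 (by omega))
      have h3 := hC i z hz
      have h4 := le_abs_self (C i)
      linarith
  have hsub : f^[m] '' V ⊆ closedBall 0 R₁ := by
    intro z hz
    rw [mem_closedBall_zero_iff]
    have := hcm.bd 0 z hz
    simp only [Function.iterate_zero, id_eq] at this
    linarith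
  have hdis' : ∀ n k : ℕ, n ≠ k → Disjoint (f^[n] '' (f^[m] '' V)) (f^[k] '' (f^[m] '' V)) := by
    intro n k hnk
    rw [← image_comp, ← image_comp, ← Function.iterate_add, ← Function.iterate_add]
    exact hdis _ _ (by omega)
  have hψ' : DifferentiableOn ℂ (fun w => f^[m] (ψ w)) (ball 0 1) :=
    fun w hw => (hfm _).comp_differentiableWithinAt w (hψ w hw)
  have hmap' : MapsTo (fun w => f^[m] (ψ w)) (ball 0 1) (f^[m] '' V) :=
    fun w hw => ⟨ψ w, hmap hw, rfl⟩
  have hder' := gen_der hfm hfmne hψ hder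
  obtain ⟨L₀, hL₀⟩ := hCor f R₁ (f^[m] '' V) hf hnc hcm.op hsub h1R hinj hdis'
    (fun w => f^[m] (ψ w)) hψ' hmap' hder' (M₂ + 1) p h (by linarith) hp hh
  refine ⟨max L₀ (M₂ + 1), fun L hL => ?_⟩
  refine le_trans (measure_mono ?_) (hL₀ L ((le_max_left _ _).trans hL))
  rintro t ⟨ht, ζ, hζ, hrl, hbad⟩
  have hζR : ‖ζ‖ ≤ R := by
    have h1 : closure V ⊆ closedBall (0 : ℂ) R := by
      apply closure_minimal _ isClosed_closedBall
      intro z hz
      rw [mem_closedBall_zero_iff]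
      simpa using hV.bd 0 z hz
    have h2 := h1 (frontier_subset_closure hζ)
    rwa [mem_closedBall_zero_iff] at h2
  refine ⟨ht, f^[m] ζ, ?_, ?_, ?_⟩
  · intro hmem
    exact hV.fr ζ hζ ((gen_fat hf hnc m ζ).1 (hcm.fat hmem))
  · exact (hfm.continuous.tendsto ζ).comp hrl
  · have hM₂L : M₂ < L := by
      have := (le_max_right L₀ (M₂ + 1)).trans hL
      linarith
    exact gen_bad hf hζR hM hM₂ hM₂L hbad

end Pool.Agent.HMZ
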