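import Pool.Agent.HMZ.St
import Pool.Agent.AS.Ext

/-!
# HMZ, module Inv: invariant Beltrami coefficients
-/

set_option autoImplicit false
set_option linter.unusedVariables false

noncomputable section

namespace Pool.Agent.HMZ

open Complex Metric Set Filter Topology MeasureTheory Pool.Agent.AS
open scoped ComplexConjugate

theorem thm_Inv : St_Inv := by
  intro f V D R' ρ hf hV hinj hdis hD hVρ hR hfρ
  obtain ⟨x, lam, hx, hlam, hl1, hW, hdef⟩ := extend f V hf hV hinj hdis
  set ν₀ : ℂ → ℂ := fun z => lam z * D.indicator (fun _ => (1 : ℂ)) (x z) with hν₀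
  set ν : ℂ → ℂ := (closedBall (0 : ℂ) ρ).indicator ν₀ with hν
  have hν1 : ∀ z, ‖z‖ ≤ ρ → ν z = ν₀ z := fun z hz =>
    indicator_of_mem (mem_closedBall_zero_iff.2 hz) ν₀
  have hν2 : ∀ z, ρ < ‖z‖ → ν z = 0 := fun z hz =>
    indicator_of_notMem (fun h => absurd (mem_closedBall_zero_iff.1 h) (not_le.2 hz)) ν₀
  have hind : ∀ y, ‖D.indicator (fun _ => (1 : ℂ)) y‖ ≤ 1 := by
    intro y
    by_cases hy : y ∈ D
    · rw [indicator_of_mem hy, norm_one]
    · rw [indicator_of_notMem hy, norm_zero]
      exact zero_le_one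
  refine ⟨ν, ⟨?_, ?_, hν2⟩, ?_, ?_⟩
  · refine Measurable.indicator ?_ measurableSet_closedBall
    exact hlam.mul ((measurable_const.indicator hD).comp hx)
  · intro z
    by_cases hz : ‖z‖ ≤ ρ
    · rw [hν1 z hz, hν₀]
      simp only
      rw [norm_mul]
      exact mul_le_one₀ (hl1 z) (norm_nonneg _) (hind _)
    · rw [hν2 z (not_le.1 hz), norm_zero]
      exact zero_le_one
  · intro z hz
    have hz' : ‖z‖ ≤ ρ := (mem_ball_zero_iff.1 hz).le.trans hR
    rw [hν1 z hz', hν1 (f z) (hfρ z hz)]
    by_cases hd : deriv f z = 0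
    · rw [hd, map_zero, mul_zero, mul_zero]
    · obtain ⟨h1, h2⟩ := hdef z hd
      rw [hν₀]
      simp only
      by_cases hl : lam z = 0
      · rw [hl, zero_mul] at h1
        have h3 : lam (f z) = 0 := by
          have h4 := mul_eq_zero.1 h1.symm
          rcases h4 with h4 | h4
          · exact h4
          · exact absurd ((map_eq_zero _).1 h4) hd
        rw [hl, h3]
        ring
      · rw [h2 hl]
        linear_combination (D.indicator (fun _ => (1 : ℂ)) (x z)) * h1
  · intro z hz
    rw [hν1 z (mem_closedBall_zero_iff.1 (hVρ hz)), hν₀]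
    simp only
    rw [(hW z hz).1, (hW z hz).2, one_mul]

end Pool.Agent.HMZ
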