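import Pool.Agent.HMZ.St

/-!
HMZ, module Kil: killing coefficients, with a better decay near `0`.
-/

set_option autoImplicit false

namespace Pool.Agent.HMZ

open Complex Metric Set Filter Topology MeasureTheory
open scoped ComplexConjugate

theorem kil_tail (N : ℕ) (R' : ℝ) (hR : 0 < R') (g : ℂ → ℂ)
    (hg : DifferentiableOn ℂ g (ball 0 R')) (h0 : ∀ k < N, iteratedDeriv k g 0 = 0) (B : ℝ)
    (hB : ∀ z ∈ ball (0 : ℂ) R', ‖g z‖ ≤ B) (z : ℂ) (hz : ‖z‖ ≤ R' / 2) :
    ‖g z‖ ≤ 2 * B * (‖z‖ / R') ^ N := by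
  obtain ⟨t, ht⟩ : ∃ t : ℝ, t = ‖z‖ / R' := ⟨_, rfl⟩
  have ht0 : 0 ≤ t := by rw [ht]; positivity
  have ht2 : t ≤ 1 / 2 := by
    rw [ht, div_le_iff₀ hR]
    linarith
  have htz : ‖z‖ = t * R' := by rw [ht]; field_simp
  rw [← ht]
  have hB0 : 0 ≤ B := le_trans (norm_nonneg _) (hB 0 (mem_ball_self hR))
  -- Cauchy estimates
  have hc : ∀ k : ℕ, ‖iteratedDeriv k g 0‖ * R' ^ k ≤ k.factorial * B := by
    intro k
    have h1 : ∀ r : ℝ, 0 < r → r < R' → ‖iteratedDeriv k g 0‖ * r ^ k ≤ k.factorial * B := by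
      intro r hr hr'
      have h2 : closedBall (0 : ℂ) r ⊆ ball 0 R' := closedBall_subset_ball hr'
      have h3 : DiffContOnCl ℂ g (ball 0 r) := by
        apply DifferentiableOn.diffContOnCl
        rw [closure_ball _ hr.ne']
        exact hg.mono h2
      have h4 := Complex.norm_iteratedDeriv_le_of_forall_mem_sphere_norm_le k hr h3
        (C := B) (fun w hw => hB w (h2 (sphere_subset_closedBall hw)))
      rwa [le_div_iff₀ (pow_pos hr k)] at h4
    have ht : Tendsto (fun r : ℝ => ‖iteratedDeriv k g 0‖ * r ^ k) (𝓝[<] R')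
        (𝓝 (‖iteratedDeriv k g 0‖ * R' ^ k)) := by
      apply Tendsto.mono_left _ nhdsWithin_le_nhds
      exact (continuous_const.mul (continuous_pow k)).tendsto R'
    refine le_of_tendsto ht ?_
    have : Ioo 0 R' ∈ 𝓝[<] R' := Ioo_mem_nhdsLT hR
    filter_upwards [this] with r hr using h1 r hr.1 hr.2
  have hzb : z ∈ ball (0 : ℂ) R' := by
    rw [mem_ball_zero_iff]; linarith
  have hs := Complex.hasSum_taylorSeries_on_ball hg hzb
  have hs' := (hasSum_nat_add_iff' N).mpr hs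
  have hz0 : ∑ i ∈ Finset.range N, ((i.factorial : ℂ)⁻¹ • (z - 0) ^ i • iteratedDeriv i g 0) = 0 := by
    apply Finset.sum_eq_zero
    intro i hi
    rw [h0 i (Finset.mem_range.mp hi)]
    simp
  rw [hz0, sub_zero] at hs'
  have hgeo : HasSum (fun k : ℕ => B * t ^ (k + N)) (B * t ^ N * (1 - t)⁻¹) := by
    have h := (hasSum_geometric_of_lt_one ht0 (by linarith : t < 1)).mul_left (B * t ^ N)
    have e : (fun k : ℕ => B * t ^ (k + N)) = fun k : ℕ => B * t ^ N * t ^ k := by
      funext k; rw [pow_add]; ring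
    rw [e]; exact h
  have hterm : ∀ k : ℕ, ‖(((k + N).factorial : ℂ)⁻¹ • (z - 0) ^ (k + N) •
      iteratedDeriv (k + N) g 0)‖ ≤ B * t ^ (k + N) := by
    intro k
    generalize k + N = m
    rw [norm_smul, norm_smul, norm_inv, Complex.norm_natCast, norm_pow, sub_zero]
    have hf : (0 : ℝ) < m.factorial := by exact_mod_cast m.factorial_pos
    have h2 : ‖z‖ ^ m * ‖iteratedDeriv m g 0‖ ≤ t ^ m * (m.factorial * B) := by
      calc ‖z‖ ^ m * ‖iteratedDeriv m g 0‖ = t ^ m * (‖iteratedDeriv m g 0‖ * R' ^ m) := by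
            rw [htz, mul_pow]; ring
        _ ≤ _ := mul_le_mul_of_nonneg_left (hc m) (by positivity)
    rw [inv_mul_le_iff₀ hf]
    calc _ ≤ t ^ m * (m.factorial * B) := h2
      _ = _ := by ring
  have hle := tsum_of_norm_bounded hgeo hterm
  simp only [sub_zero] at hs' hle
  rw [hs'.tsum_eq] at hle
  refine hle.trans ?_
  have h5 : (0 : ℝ) ≤ B * t ^ N := by positivity
  have h6 : (1 - t)⁻¹ ≤ 2 := by
    rw [inv_le_comm₀ (by linarith) (by norm_num)]
    linarith
  calc B * t ^ N * (1 - t)⁻¹ ≤ B * t ^ N * 2 := mul_le_mul_of_nonneg_left h6 h5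
    _ = 2 * B * t ^ N := by ring

theorem thm_Kil : St_Kil := by
  intro N R' η hR hη
  have han : ∀ (i : Fin (N + 1)) (k : ℕ), ContDiffAt ℂ k (η i) 0 := by
    intro i k
    have h := (hη i).analyticAt (isOpen_ball.mem_nhds (mem_ball_self hR))
    exact h.contDiffAt
  -- the linear conditions
  let L : (Fin (N + 1) → ℂ) →ₗ[ℂ] (Fin N → ℂ) :=
    { toFun := fun c k => ∑ i, c i * iteratedDeriv (k : ℕ) (η i) 0
      map_add' := by
        intro a b; funext k
        simp [add_mul, Finset.sum_add_distrib]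
      map_smul' := by
        intro a b; funext k
        simp [Finset.mul_sum, mul_assoc] }
  have hL : LinearMap.ker L ≠ ⊥ := by
    apply LinearMap.ker_ne_bot_of_finrank_lt
    simp
  obtain ⟨c, hcL, hc0⟩ := Submodule.exists_mem_ne_zero_of_ne_bot hL
  obtain ⟨i0, -, hi0⟩ := Finset.exists_max_image Finset.univ (fun i => ‖c i‖)
    ⟨(0 : Fin (N + 1)), Finset.mem_univ _⟩
  have hpos : 0 < ‖c i0‖ := by
    by_contra h
    apply hc0
    funext i
    have h1 : ‖c i‖ ≤ ‖c i0‖ := hi0 i (Finset.mem_univ _)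
    have h2 : ‖c i‖ ≤ 0 := by linarith
    simpa using h2
  have hLc : ∀ k < N, ∑ i, c i * iteratedDeriv k (η i) 0 = 0 := by
    intro k hk
    have := congrFun (LinearMap.mem_ker.mp hcL) ⟨k, hk⟩
    simpa [L] using this
  refine ⟨fun i => c i / (‖c i0‖ : ℂ), ?_, ⟨i0, ?_⟩, ?_⟩
  · intro i
    rw [norm_div, Complex.norm_real, norm_norm, div_le_one hpos]
    exact hi0 i (Finset.mem_univ _)
  · rw [norm_div, Complex.norm_real, norm_norm, div_self hpos.ne']
  · intro B hB z hz
    refine kil_tail N R' hR (fun z => ∑ i, c i / (‖c i0‖ : ℂ) * η i z) ?_ ?_ B hB z hz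
    · exact DifferentiableOn.fun_sum fun i _ => (hη i).const_mul _
    · intro k hk
      rw [iteratedDeriv_fun_sum (fun i _ => (contDiffAt_const.mul (han i k)))]
      have : ∀ i : Fin (N + 1), iteratedDeriv k (fun z => c i / (‖c i0‖ : ℂ) * η i z) 0 =
          (‖c i0‖ : ℂ)⁻¹ * (c i * iteratedDeriv k (η i) 0) := by
        intro i
        rw [iteratedDeriv_const_mul _ (han i k)]
        rw [div_eq_mul_inv]; ring
      rw [Finset.sum_congr rfl (fun i _ => this i), ← Finset.mul_sum, hLc k hk, mul_zero]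

end Pool.Agent.HMZ
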