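import Pool.Agent.HMZ.St

/-! # HMZ: module Num -/

set_option autoImplicit false

namespace Pool.Agent.HMZ

theorem num_lam {q p Λ₀ : ℝ} (hq : 0 < q) (hp : 0 ≤ p) (hΛ : 0 < Λ₀) :
    ∃ lam : ℝ, 2 ≤ lam ∧ Λ₀ ≤ lam ^ (q / (2 * (p + 1))) := by
  refine ⟨max 2 (Λ₀ ^ (2 * (p + 1) / q)), le_max_left _ _, ?_⟩
  have h1 : (Λ₀ ^ (2 * (p + 1) / q)) ^ (q / (2 * (p + 1))) = Λ₀ := by
    rw [← Real.rpow_mul hΛ.le]
    have : 2 * (p + 1) / q * (q / (2 * (p + 1))) = 1 := by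
      field_simp
    rw [this, Real.rpow_one]
  calc Λ₀ = (Λ₀ ^ (2 * (p + 1) / q)) ^ (q / (2 * (p + 1))) := h1.symm
    _ ≤ (max 2 (Λ₀ ^ (2 * (p + 1) / q))) ^ (q / (2 * (p + 1))) :=
        Real.rpow_le_rpow (by positivity) (le_max_right _ _) (by positivity)

theorem num_decay {q p Λ₀ lam L : ℝ} {N : ℕ} (hq : 0 < q) (hp : 0 ≤ p) (hΛ : 0 < Λ₀)
    (hlam : 2 ≤ lam) (h : Λ₀ ≤ lam ^ (q / (2 * (p + 1)))) (hL : 1 ≤ L)
    (hN : lam ^ N ≤ L ^ (p + 1)) : L ^ (-(q / 2)) ≤ Λ₀⁻¹ ^ N := by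
  have hL0 : 0 < L := by linarith
  have hlam0 : 0 < lam := by linarith
  have e1 : L ^ (q / 2) = (L ^ (p + 1)) ^ (q / (2 * (p + 1))) := by
    rw [← Real.rpow_mul hL0.le]
    congr 1
    field_simp
  have e2 : (lam ^ N) ^ (q / (2 * (p + 1))) = (lam ^ (q / (2 * (p + 1)))) ^ N := by
    rw [← Real.rpow_natCast, ← Real.rpow_natCast, ← Real.rpow_mul hlam0.le,
      ← Real.rpow_mul hlam0.le, mul_comm]
  have h1 : Λ₀ ^ N ≤ L ^ (q / 2) := by
    calc Λ₀ ^ N ≤ (lam ^ (q / (2 * (p + 1)))) ^ N := pow_le_pow_left₀ hΛ.le h N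
      _ = (lam ^ N) ^ (q / (2 * (p + 1))) := e2.symm
      _ ≤ (L ^ (p + 1)) ^ (q / (2 * (p + 1))) :=
          Real.rpow_le_rpow (by positivity) hN (by positivity)
      _ = L ^ (q / 2) := e1.symm
  rw [Real.rpow_neg hL0.le, inv_pow]
  exact inv_anti₀ (by positivity) h1

theorem num_split {C C' L q : ℝ} (hC : 0 < C) (hC' : 0 < C') (hL : 0 < L) :
    (2 * C' * L ^ (-(1 / 2) : ℝ) / C) ^ q = (2 * C' / C) ^ q * L ^ (-(q / 2)) := by
  have e : 2 * C' * L ^ (-(1 / 2) : ℝ) / C = (2 * C' / C) * L ^ (-(1 / 2) : ℝ) := by ring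
  rw [e, Real.mul_rpow (by positivity) (by positivity), ← Real.rpow_mul hL.le]
  congr 2
  ring

theorem num_nat (N : ℕ) : (N : ℝ) + 1 ≤ 2 ^ N := by
  have : N + 1 ≤ 2 ^ N := Nat.lt_two_pow_self
  exact_mod_cast this

theorem thm_Num : St_Num := by
  intro κ h r R₁ p hκ hh hr hR hp
  have hq : 0 < κ * h := by positivity
  have hR0 : 0 < R₁ := by linarith
  have hΛ : 0 < 16 * R₁ / r := by positivity
  obtain ⟨lam, hlam, hlamΛ⟩ := num_lam hq hp hΛ
  refine ⟨lam, hlam, ?_⟩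
  intro C C' hC hC'
  obtain ⟨N₀, hN₀⟩ := pow_unbounded_of_one_lt
    (C * (4 * R₁) * (2 * C' / C) ^ (κ * h) / r ^ 2) (one_lt_two : (1 : ℝ) < 2)
  refine ⟨max 1 (max (lam ^ (N₀ + 1)) ((2 * C' / C) ^ 2)), le_max_left _ _, ?_⟩
  intro L hL N hN1 hN2
  have hL1 : 1 ≤ L := (le_max_left _ _).trans hL
  have hL2 : lam ^ (N₀ + 1) ≤ L := ((le_max_left _ _).trans (le_max_right _ _)).trans hL
  have hL3 : (2 * C' / C) ^ 2 ≤ L := ((le_max_right _ _).trans (le_max_right _ _)).trans hL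
  have hL0 : 0 < L := by linarith
  have hlam0 : 0 < lam := by linarith
  have hlam1 : 1 < lam := by linarith
  constructor
  · have h1 : 2 * C' / C ≤ L ^ (1 / 2 : ℝ) := by
      rw [← Real.sqrt_eq_rpow]
      exact Real.le_sqrt_of_sq_le hL3
    rw [Real.rpow_neg hL0.le, ← div_eq_mul_inv, div_le_iff₀ (by positivity)]
    rw [div_le_iff₀ hC] at h1
    linarith
  · have hNN : N₀ ≤ N := by
      have h1 : lam ^ (N₀ + 1) < lam ^ (N + 1) := by
        calc lam ^ (N₀ + 1) ≤ L := hL2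
          _ = L ^ (1 : ℝ) := (Real.rpow_one L).symm
          _ ≤ L ^ (p + 1) := Real.rpow_le_rpow_of_exponent_le hL1 (by linarith)
          _ < lam ^ (N + 1) := hN2
      have h2 : N₀ + 1 < N + 1 := (pow_lt_pow_iff_right₀ hlam1).mp h1
      omega
    have hK : 0 < C * (4 * R₁) * (2 * C' / C) ^ (κ * h) := by positivity
    have h3 : C * (4 * R₁) * (2 * C' / C) ^ (κ * h) < r ^ 2 * 2 ^ N := by
      have h4 : (2 : ℝ) ^ N₀ ≤ 2 ^ N := pow_le_pow_right₀ (by norm_num) hNN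
      have h5 := hN₀.trans_le h4
      rw [div_lt_iff₀ (by positivity)] at h5
      linarith
    have h6 := num_decay hq hp hΛ hlam hlamΛ hL1 hN1
    rw [num_split hC hC' hL0]
    have e1 : (4 * R₁) ^ N * (16 * R₁ / r)⁻¹ ^ N = (r / 4) ^ N := by
      rw [← mul_pow]
      congr 1
      field_simp
      norm_num
    calc C * (N + 1) * (4 * R₁) ^ (N + 1) * ((2 * C' / C) ^ (κ * h) * L ^ (-(κ * h / 2)))
        ≤ C * (N + 1) * (4 * R₁) ^ (N + 1) *
            ((2 * C' / C) ^ (κ * h) * (16 * R₁ / r)⁻¹ ^ N) := by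
          apply mul_le_mul_of_nonneg_left _ (by positivity)
          exact mul_le_mul_of_nonneg_left h6 (by positivity)
      _ = C * (4 * R₁) * (2 * C' / C) ^ (κ * h) * ((N + 1) *
            ((4 * R₁) ^ N * (16 * R₁ / r)⁻¹ ^ N)) := by ring
      _ = C * (4 * R₁) * (2 * C' / C) ^ (κ * h) * ((N + 1) * (r / 4) ^ N) := by rw [e1]
      _ < r ^ 2 * 2 ^ N * ((N + 1) * (r / 4) ^ N) :=
          mul_lt_mul_of_pos_right h3 (by positivity)
      _ ≤ r ^ 2 * 2 ^ N * (2 ^ N * (r / 4) ^ N) := by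
          apply mul_le_mul_of_nonneg_left _ (by positivity)
          exact mul_le_mul_of_nonneg_right (num_nat N) (by positivity)
      _ = r ^ (N + 2) := by
          have e2 : (2 : ℝ) ^ N * (2 ^ N * (r / 4) ^ N) = r ^ N := by
            rw [← mul_pow, ← mul_pow]
            congr 1
            ring
          calc r ^ 2 * 2 ^ N * (2 ^ N * (r / 4) ^ N)
              = r ^ 2 * ((2 : ℝ) ^ N * (2 ^ N * (r / 4) ^ N)) := by ring
            _ = r ^ 2 * r ^ N := by rw [e2]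
            _ = r ^ (N + 2) := by ring

end Pool.Agent.HMZ
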