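import Pool.Agent.HMZ.St

/-!
# HMZ, Opn: the open mapping theorem (helper41)
-/

set_option autoImplicit false

noncomputable section

namespace Pool.Agent.HMZ

open Complex Metric Set Filter Topology

theorem thm_Opn : St_Opn := by
  intro ψ V hV hψ hm ⟨w₀, hw₀, hd⟩
  have hw1 : ‖w₀‖ < 1 := mem_ball_zero_iff.1 hw₀
  have hA : AnalyticAt ℂ ψ w₀ := hψ.analyticAt (isOpen_ball.mem_nhds hw₀)
  have hs : HasStrictDerivAt ψ (deriv ψ w₀) w₀ := hA.hasStrictDerivAt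
  have hmap : map ψ (𝓝 w₀) = 𝓝 (ψ w₀) := hs.map_nhds_eq hd
  set ρ := (1 + ‖w₀‖) / 2 with hρ
  have hρ0 : 0 < ρ := by
    have := norm_nonneg w₀
    simp only [hρ]; linarith
  have hρ1 : ρ < 1 := by simp only [hρ]; linarith
  have hρ2 : ‖w₀‖ < ρ := by simp only [hρ]; linarith
  have h1 : closedBall (0 : ℂ) ρ ∈ 𝓝 w₀ := by
    apply mem_of_superset (isOpen_ball.mem_nhds (mem_ball_zero_iff.2 hρ2)) ball_subset_closedBall
  have h2 : ψ '' closedBall 0 ρ ∈ 𝓝 (ψ w₀) := by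
    rw [← hmap]; exact image_mem_map h1
  have h3 : ψ '' closedBall 0 ρ ∩ V ∈ 𝓝 (ψ w₀) := inter_mem h2 (hV.mem_nhds (hm hw₀))
  obtain ⟨δ, hδ, hδs⟩ := Metric.nhds_basis_closedBall.mem_iff.1 h3
  refine ⟨ψ w₀, δ / 2, ρ, by positivity, hρ0, hρ1, ?_, ?_⟩
  · intro z hz
    have : 2 * (δ / 2) = δ := by ring
    rw [this] at hz
    exact (hδs hz).2
  · intro k hk
    have : 2 * (δ / 2) = δ := by ring
    rw [this] at hk
    obtain ⟨w, hw, hwk⟩ := (hδs hk).1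
    exact ⟨w, mem_closedBall_zero_iff.1 hw, hwk⟩

end Pool.Agent.HMZ
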