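import Pool.Agent.HMZ.St

/-!
# HMZ, PJ: the Poisson-Jensen inequality (helper41)
-/

set_option autoImplicit false

noncomputable section

namespace Pool.Agent.HMZ

open Complex Metric Set Filter Topology MeasureTheory
open scoped ComplexConjugate

theorem pj_cont {u : ℝ} {w : ℂ} (hw : w ∈ ball (0 : ℂ) u) :
    ContinuousOn (poissonKernel 0 w) (sphere 0 |u|) := by
  rw [poissonKernel_eq_re_herglotzRieszKernel]
  exact Complex.continuous_re.comp_continuousOn (continuousOn_herglotzRieszKernel_sphere hw)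

theorem pj_int {u : ℝ} {w : ℂ} (hw : w ∈ ball (0 : ℂ) u) {h : ℂ → ℝ}
    (hh : CircleIntegrable h 0 u) : CircleIntegrable (fun z => poissonKernel 0 w z * h z) 0 u := by
  have := hh.continuousOn_smul (pj_cont hw)
  exact this

/-- the kernel average of one factor -/
theorem pj_factor {u : ℝ} {w v : ℂ} (hu : 0 < u) (hw : w ∈ ball (0 : ℂ) u)
    (hv : v ∈ closedBall (0 : ℂ) u) (hvw : w ≠ v) :
    CircleIntegrable (fun z => poissonKernel 0 w z * Real.log ‖z - v‖) 0 u ∧
    Real.log ‖w - v‖ ≤ Real.circleAverage (fun z => poissonKernel 0 w z * Real.log ‖z - v‖) 0 u := by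
  refine ⟨pj_int hw ((analyticOnNhd_id.sub analyticOnNhd_const).meromorphicOn.circleIntegrable_log_norm), ?_⟩
  rw [mem_closedBall_zero_iff] at hv
  rcases eq_or_lt_of_le hv with hv | hv
  · have := circleAverage_re_herglotzRieszKernel_mul_log (w := w) (ρ := v) (c := 0) (R := u)
      (by rw [mem_sphere_zero_iff_norm]; exact hv) hw
    rw [← poissonKernel_eq_re_herglotzRieszKernel] at this
    exact this.ge
  · let F : ℂ → ℂ := fun z => ((u : ℂ) ^ 2 - conj v * z) / u
    have hF : ∀ z ∈ closedBall (0 : ℂ) u, F z ≠ 0 := by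
      intro z hz h0
      rw [mem_closedBall_zero_iff] at hz
      have hu' : (u : ℂ) ≠ 0 := by exact_mod_cast hu.ne'
      have h1 : (u : ℂ) ^ 2 = conj v * z := by
        have := (div_eq_zero_iff.1 h0).resolve_right hu'
        exact sub_eq_zero.1 this
      have h2 : u ^ 2 = ‖v‖ * ‖z‖ := by
        have := congrArg norm h1
        simpa [abs_of_pos hu] using this
      nlinarith [norm_nonneg v, norm_nonneg z]
    have hH : InnerProductSpace.HarmonicOnNhd (fun z => Real.log ‖F z‖) (closedBall 0 u) := by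
      intro z hz
      have hA : AnalyticAt ℂ F z := by
        have : Differentiable ℂ F := by
          intro x
          simp only [F]
          fun_prop
        exact this.analyticAt z
      exact hA.harmonicAt_log_norm (hF z hz)
    have h1 := InnerProductSpace.HarmonicOnNhd.circleAverage_poissonKernel_smul hH hw
    have h2 : Real.circleAverage (fun z => poissonKernel 0 w z * Real.log ‖z - v‖) 0 u =
        Real.circleAverage (poissonKernel 0 w • fun z => Real.log ‖F z‖) 0 u := by
      apply Real.circleAverage_congr_sphere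
      intro z hz
      have hz' : ‖z‖ = u := by
        rw [abs_of_pos hu] at hz
        rwa [mem_sphere_zero_iff_norm] at hz
      have h3 : ‖F z‖ = ‖z - v‖ := by
        have e1 : (u : ℂ) ^ 2 - conj v * z = z * conj (z - v) := by
          have : (u : ℂ) ^ 2 = z * conj z := by
            rw [Complex.mul_conj, Complex.normSq_eq_norm_sq, hz']
            push_cast; rfl
          rw [this, map_sub]; ring
        show ‖((u : ℂ) ^ 2 - conj v * z) / u‖ = _
        rw [e1, norm_div, norm_mul, hz', RCLike.norm_conj, Complex.norm_real, Real.norm_eq_abs,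
          abs_of_pos hu, mul_comm, mul_div_assoc, div_self hu.ne', mul_one]
      show poissonKernel 0 w z * Real.log ‖z - v‖ = poissonKernel 0 w z * Real.log ‖F z‖
      rw [h3]
    rw [h2, h1]
    apply Real.log_le_log (norm_pos_iff.2 (sub_ne_zero.2 hvw))
    show ‖w - v‖ ≤ ‖((u : ℂ) ^ 2 - conj v * w) / u‖
    rw [norm_div, Complex.norm_real, Real.norm_eq_abs, abs_of_pos hu, le_div_iff₀ hu]
    have hw' : ‖w‖ < u := by simpa using hw
    apply abs_le_of_sq_le_sq' _ (norm_nonneg _) |>.2
    have e1 : ‖(u : ℂ) ^ 2 - conj v * w‖ ^ 2 - (‖w - v‖ * u) ^ 2 =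
        (u ^ 2 - ‖v‖ ^ 2) * (u ^ 2 - ‖w‖ ^ 2) := by
      rw [mul_pow]
      simp only [← Complex.normSq_eq_norm_sq, Complex.normSq_apply]
      have e2 : ((u : ℂ) ^ 2).re = u ^ 2 := by
        rw [← Complex.ofReal_pow]; exact Complex.ofReal_re _
      have e3 : ((u : ℂ) ^ 2).im = 0 := by
        rw [← Complex.ofReal_pow]; exact Complex.ofReal_im _
      simp only [Complex.sub_re, Complex.sub_im, Complex.mul_re, Complex.mul_im, Complex.conj_re,
        Complex.conj_im, e2, e3]
      ring
    nlinarith [mul_nonneg (sub_nonneg.2 (pow_le_pow_left₀ (norm_nonneg v) hv.le 2))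
      (sub_nonneg.2 (pow_le_pow_left₀ (norm_nonneg w) hw'.le 2))]

theorem thm_PJ : St_PJ := by
  intro g u w hu hg hw hgw
  have hu' : |u| = u := abs_of_pos hu
  have hgm : MeromorphicOn g (closedBall 0 |u|) := by rw [hu']; exact hg.meromorphicOn
  have hint : CircleIntegrable (fun z => Real.log ‖g z‖) 0 u := by
    apply MeromorphicOn.circleIntegrable_log_norm
    intro z hz
    exact hgm z (sphere_subset_closedBall hz)
  refine ⟨pj_int hw hint, ?_⟩
  set CB := closedBall (0 : ℂ) |u| with hCB
  have hwCB : w ∈ CB := by rw [hCB, hu']; exact ball_subset_closedBall hw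
  have h2 : ∀ x : CB, meromorphicOrderAt g x ≠ ⊤ := by
    rw [← hgm.exists_meromorphicOrderAt_ne_top_iff_forall
      ⟨nonempty_closedBall.mpr (abs_nonneg u), (convex_closedBall 0 |u|).isPreconnected⟩]
    refine ⟨⟨w, hwCB⟩, ?_⟩
    have h3 : AnalyticAt ℂ g w := by
      rw [hCB, hu'] at hwCB; exact hg w hwCB
    rw [h3.meromorphicOrderAt_eq, h3.analyticOrderAt_eq_zero.2 hgw]
    simp
  have hfin := (MeromorphicOn.divisor g CB).finiteSupport (isCompact_closedBall 0 |u|)
  obtain ⟨g₁, h₁g, h₂g, h₃g⟩ := hgm.extract_zeros_poles h2 hfin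
  have h₄g := MeromorphicOn.extract_zeros_poles_log h₂g h₃g
  set D := MeromorphicOn.divisor g CB with hD
  have hDw : D w = 0 := by
    have h3 : AnalyticAt ℂ g w := by
      rw [hCB, hu'] at hwCB; exact hg w hwCB
    rw [hD, MeromorphicOn.divisor_apply hgm hwCB, h3.meromorphicOrderAt_eq,
      h3.analyticOrderAt_eq_zero.2 hgw]
    simp
  have hDpos : ∀ v, 0 ≤ D v := by
    intro v
    by_cases hv : v ∈ CB
    · have h3 : AnalyticAt ℂ g v := by
        rw [hCB, hu'] at hv; exact hg v hv
      rw [hD, MeromorphicOn.divisor_apply hgm hv]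
      have h4 := h3.meromorphicOrderAt_nonneg
      have h5 := h2 ⟨v, hv⟩
      lift meromorphicOrderAt g v to ℤ using h5 with k hk
      simpa using h4
    · rw [hD, Function.locallyFinsuppWithin.apply_eq_zero_of_notMem _ hv]
  have hsum : ∀ z : ℂ, (∑ᶠ v, (D v * Real.log ‖· - v‖) : ℂ → ℝ) z =
      ∑ v ∈ hfin.toFinset, D v * Real.log ‖z - v‖ := by
    intro z
    rw [finsum_eq_sum_of_support_subset (s := hfin.toFinset)]
    · simp
    · intro v
      contrapose
      aesop
  -- the average
  have key : Real.circleAverage (fun z => poissonKernel 0 w z * Real.log ‖g z‖) 0 u =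
      Real.circleAverage (fun z => ∑ v ∈ hfin.toFinset, D v * (poissonKernel 0 w z *
        Real.log ‖z - v‖) + poissonKernel 0 w z * Real.log ‖g₁ z‖) 0 u := by
    apply Real.circleAverage_congr_codiscreteWithin _ hu.ne'
    have h5 := codiscreteWithin_mono (U := CB) sphere_subset_closedBall h₄g
    filter_upwards [h5] with z hz
    have hz' : Real.log ‖g z‖ = (∑ᶠ v, (D v * Real.log ‖· - v‖) : ℂ → ℝ) z + Real.log ‖g₁ z‖ := hz
    rw [hz', hsum, mul_add, Finset.mul_sum]
    congr 1
    refine Finset.sum_congr rfl fun v _ => by ring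
  have hg₁ : InnerProductSpace.HarmonicOnNhd (fun z => Real.log ‖g₁ z‖) (closedBall 0 u) := by
    intro z hz
    have hz' : z ∈ CB := by rw [hCB, hu']; exact hz
    exact (h₁g z hz').harmonicAt_log_norm (h₂g ⟨z, hz'⟩)
  have hne : ∀ v ∈ hfin.toFinset, v ∈ closedBall (0 : ℂ) u ∧ w ≠ v := by
    intro v hv
    rw [Set.Finite.mem_toFinset] at hv
    constructor
    · have := D.supportWithinDomain hv
      rwa [hCB, hu'] at this
    · rintro rfl
      exact hv hDw
  have hI1 : ∀ v ∈ hfin.toFinset, CircleIntegrable (fun z => (D v : ℝ) * (poissonKernel 0 w z *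
        Real.log ‖z - v‖)) 0 u := fun v hv =>
    IntervalIntegrable.const_mul (pj_factor hu hw (hne v hv).1 (hne v hv).2).1 _
  have hI2 : CircleIntegrable (fun z => ∑ v ∈ hfin.toFinset, (D v : ℝ) * (poissonKernel 0 w z *
        Real.log ‖z - v‖)) 0 u := by
    have e : (fun z => ∑ v ∈ hfin.toFinset, (D v : ℝ) * (poissonKernel 0 w z *
        Real.log ‖z - v‖)) = ∑ v ∈ hfin.toFinset, fun z => (D v : ℝ) * (poissonKernel 0 w z *
        Real.log ‖z - v‖) := by
      funext z
      simp only [Finset.sum_apply]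
    rw [e]
    exact CircleIntegrable.sum hfin.toFinset hI1
  have hI3 : CircleIntegrable (fun z => poissonKernel 0 w z * Real.log ‖g₁ z‖) 0 u := by
    apply pj_int hw
    apply MeromorphicOn.circleIntegrable_log_norm
    intro z hz
    exact (h₁g z (sphere_subset_closedBall hz)).meromorphicAt
  have hA := InnerProductSpace.HarmonicOnNhd.circleAverage_poissonKernel_smul hg₁ hw
  have hA' : Real.circleAverage (fun z => poissonKernel 0 w z * Real.log ‖g₁ z‖) 0 u =
    Real.log ‖g₁ w‖ := hA
  rw [key, Real.circleAverage_fun_add hI2 hI3, hA', Real.circleAverage_fun_sum hI1]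
  have hw2 : Real.log ‖g w‖ = ∑ v ∈ hfin.toFinset, D v * Real.log ‖w - v‖ + Real.log ‖g₁ w‖ := by
    have t₁ : AccPt w (𝓟 CB) := by
      apply accPt_iff_frequently_nhdsNE.mpr
      apply compl_notMem
      apply mem_nhdsWithin.mpr
      refine ⟨ball 0 u, isOpen_ball, hw, ?_⟩
      rintro x ⟨hx, -⟩
      show x ∈ CB
      rw [hCB, hu']; exact ball_subset_closedBall hx
    have h3 : AnalyticAt ℂ g w := by
      rw [hCB, hu'] at hwCB; exact hg w hwCB
    have h6 := MeromorphicOn.log_norm_meromorphicTrailingCoeffAt_extract_zeros_poles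
      (D := D) hfin hwCB t₁ h3.meromorphicAt (h₁g w hwCB) (h₂g ⟨w, hwCB⟩) h₃g
    rw [h3.meromorphicTrailingCoeffAt_of_ne_zero hgw] at h6
    rw [h6]
    congr 1
    rw [finsum_eq_sum_of_support_subset (s := hfin.toFinset)]
    intro v
    contrapose
    aesop
  rw [hw2]
  refine add_le_add (Finset.sum_le_sum fun v hv => ?_) le_rfl
  have h7 : Real.circleAverage (fun z => (D v : ℝ) * (poissonKernel 0 w z * Real.log ‖z - v‖)) 0 u =
      D v * Real.circleAverage (fun z => poissonKernel 0 w z * Real.log ‖z - v‖) 0 u := by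
    simp_rw [← smul_eq_mul (a := (D v : ℝ))]
    rw [Real.circleAverage_fun_smul]
  rw [h7]
  exact mul_le_mul_of_nonneg_left (pj_factor hu hw (hne v hv).1 (hne v hv).2).2
    (by exact_mod_cast hDpos v)

end Pool.Agent.HMZ
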