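import Pool.Agent.HMZ.St

/-!
# HMZ, module Pol: polynomials with zeros on a circle
-/

set_option autoImplicit false
set_option linter.unusedVariables false

noncomputable section

namespace Pool.Agent.HMZ

open Complex Metric Set Filter Topology MeasureTheory Pool.Agent.AS

theorem thm_Pol : St_Pol := by
  intro N b r hr
  have hN : N + 1 ≠ 0 := Nat.succ_ne_zero N
  obtain ⟨ζ, hζ⟩ : ∃ ζ : ℂ, IsPrimitiveRoot ζ (N + 1) :=
    ⟨_, Complex.isPrimitiveRoot_exp (N + 1) hN⟩
  have hζ1 : ‖ζ‖ = 1 := hζ.norm'_eq_one hN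
  set β : Fin (N + 1) → ℂ := fun k => r * ζ ^ k.val with hβ
  have hβn : ∀ k, ‖β k‖ = r := by
    intro k
    rw [hβ]
    simp only
    rw [norm_mul, norm_pow, hζ1, one_pow, mul_one, norm_real, Real.norm_of_nonneg hr.le]
  have hβp : ∀ k, (β k) ^ (N + 1) = (r : ℂ) ^ (N + 1) := by
    intro k
    rw [hβ]
    simp only
    rw [mul_pow, ← pow_mul, mul_comm k.val, pow_mul, hζ.pow_eq_one, one_pow, mul_one]
  have hgeo : ∀ (k : Fin (N + 1)) (s : ℂ), (s - β k) *
      (∑ i ∈ Finset.range (N + 1), s ^ i * (β k) ^ (N - i)) = s ^ (N + 1) - (r : ℂ) ^ (N + 1) := by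
    intro k s
    have h := geom_sum₂_mul s (β k) (N + 1)
    rw [Nat.add_sub_cancel, hβp] at h
    rw [mul_comm, h]
  refine ⟨β, fun k z => ∑ i ∈ Finset.range (N + 1), (z - b) ^ i * (β k) ^ (N - i), hβn, ?_, ?_, ?_,
    ?_, ?_⟩
  · intro k
    fun_prop
  · intro k z
    have e : z - (b + β k) = (z - b) - β k := by ring
    rw [e]
    exact hgeo k (z - b)
  · intro k
    have e : b + β k - b = β k := by ring
    simp only [e]
    have h : ∀ i ∈ Finset.range (N + 1), (β k) ^ i * (β k) ^ (N - i) = (β k) ^ N := by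
      intro i hi
      rw [← pow_add]
      congr 1
      have := Finset.mem_range.1 hi
      omega
    rw [Finset.sum_congr rfl h, Finset.sum_const, Finset.card_range, nsmul_eq_mul, norm_mul,
      norm_pow, hβn, norm_natCast]
    push_cast
    ring
  · intro k j hjk
    have e : b + β k - b = β k := by ring
    have h := hgeo j (β k)
    rw [hβp, sub_self] at h
    have hne : β k - β j ≠ 0 := by
      intro h0
      have h1 : β k = β j := sub_eq_zero.1 h0
      have h2 : (r : ℂ) * ζ ^ k.val = r * ζ ^ j.val := h1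
      have hr0 : (r : ℂ) ≠ 0 := by
        rw [Ne, Complex.ofReal_eq_zero]
        exact hr.ne'
      have h3 := hζ.pow_inj k.2 j.2 (mul_left_cancel₀ hr0 h2)
      exact hjk (Fin.ext h3.symm)
    simp only [e]
    exact (mul_eq_zero.1 h).resolve_left hne
  · intro k z M hz hM
    have hM0 : 0 ≤ M := hr.le.trans hM
    calc ‖∑ i ∈ Finset.range (N + 1), (z - b) ^ i * (β k) ^ (N - i)‖
        ≤ ∑ i ∈ Finset.range (N + 1), ‖(z - b) ^ i * (β k) ^ (N - i)‖ := norm_sum_le _ _
      _ ≤ ∑ i ∈ Finset.range (N + 1), M ^ N := by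
        refine Finset.sum_le_sum fun i hi => ?_
        have hi' := Finset.mem_range.1 hi
        rw [norm_mul, norm_pow, norm_pow, hβn]
        calc ‖z - b‖ ^ i * r ^ (N - i) ≤ M ^ i * M ^ (N - i) := by gcongr
          _ = M ^ N := by
            rw [← pow_add]
            congr 1
            omega
      _ = (N + 1) * M ^ N := by
        rw [Finset.sum_const, Finset.card_range, nsmul_eq_mul]
        push_cast
        ring

end Pool.Agent.HMZ
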