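import Pool.Agent.HMZ.St
import Pool.Agent.AS.Ct1
import Pool.Agent.AS.Ct2

/-!
# HMZ, module Spl: the Cauchy transform near a disc (helper64)
-/

set_option autoImplicit false
set_option linter.unusedVariables false

noncomputable section

namespace Pool.Agent.HMZ

open Complex Metric Set Filter Topology MeasureTheory Pool.Agent.AS
open scoped ComplexConjugate

/-- the coefficient outside of the disc -/
def spl_out (ν : ℂ → ℂ) (D : Set ℂ) : ℂ → ℂ := Dᶜ.indicator ν

theorem spl_out_adm (ν : ℂ → ℂ) (D : Set ℂ) (ρ : ℝ) (hν : Adm ν ρ) (hD : MeasurableSet D) :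
    Adm (spl_out ν D) ρ where
  meas := hν.meas.indicator hD.compl
  bd z := by
    unfold spl_out
    by_cases hz : z ∈ Dᶜ
    · rw [indicator_of_mem hz]
      exact hν.bd z
    · rw [indicator_of_notMem hz, norm_zero]
      exact zero_le_one
  supp z hz := by
    unfold spl_out
    by_cases hz' : z ∈ Dᶜ
    · rw [indicator_of_mem hz']
      exact hν.supp z hz
    · rw [indicator_of_notMem hz']

theorem thm_Spl (hDsc : St_Dsc) : St_Spl := by
  intro ρ
  obtain ⟨C, hC, hCb⟩ := ctBound ρ
  refine ⟨C, hC, ?_⟩
  intro ν V w a hν hV ha hDV hνV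
  set D : Set ℂ := closedBall w a with hD
  have hDm : MeasurableSet D := measurableSet_closedBall
  have hout := spl_out_adm ν D ρ hν hDm
  have hone : ∀ z ∈ D, ν z = 1 := by
    intro z hz
    rw [hνV z (hDV hz), indicator_of_mem hz]
  have hind : Adm (D.indicator fun _ => (1 : ℂ)) ρ := by
    refine ⟨measurable_const.indicator hDm, ?_, ?_⟩
    · intro z
      by_cases hz : z ∈ D
      · rw [indicator_of_mem hz, norm_one]
      · rw [indicator_of_notMem hz, norm_zero]
        exact zero_le_one
    · intro z hz
      by_cases hz' : z ∈ D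
      · have h1 := hν.supp z hz
        rw [hone z hz'] at h1
        exact absurd h1 one_ne_zero
      · rw [indicator_of_notMem hz']
  refine ⟨ct (spl_out ν D), ?_, hCb _ hout, ?_⟩
  · refine ctHol ρ _ hout V hV ?_
    intro z hz
    unfold spl_out
    by_cases hz' : z ∈ Dᶜ
    · rw [indicator_of_mem hz', hνV z hz, indicator_of_notMem hz']
    · rw [indicator_of_notMem hz']
  · intro z hz
    have hsum : ν = fun u => ∑ i : Fin 2, (1 : ℂ) *
        (![spl_out ν D, D.indicator fun _ => (1 : ℂ)] i) u := by
      funext u
      rw [Fin.sum_univ_two]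
      simp only [Matrix.cons_val_zero, Matrix.cons_val_one, one_mul]
      unfold spl_out
      by_cases hu : u ∈ D
      · rw [indicator_of_notMem (show u ∉ Dᶜ from fun h => h hu), indicator_of_mem hu, hone u hu,
          zero_add]
      · rw [indicator_of_mem (show u ∈ Dᶜ from hu), indicator_of_notMem hu, add_zero]
    have hadm : ∀ i : Fin 2, Adm (![spl_out ν D, D.indicator fun _ => (1 : ℂ)] i) ρ := by
      intro i
      fin_cases i
      · exact hout
      · exact hind
    have h := ctSum ρ 2 ![spl_out ν D, D.indicator fun _ => (1 : ℂ)] hadm (fun _ => 1) z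
    rw [← hsum, Fin.sum_univ_two] at h
    simp only [Matrix.cons_val_zero, Matrix.cons_val_one, one_mul] at h
    rw [h, hDsc w z a ha hz]

end Pool.Agent.HMZ
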