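import Pool.Agent.AS.Defs2

/-!
# HMZ: zero exponent at harmonic-almost every boundary point (MP_a853b7_an; architect helper41)

Paper: /team-store/HUNT4_a853b7_helper41.md.  Let `V` be a wandering Fatou component of the entire function `f` on which
all iterates are bounded by `R`, and `ψ` a nonconstant holomorphic map of the unit disc into `V` (for instance a
Riemann map; then radial limits give the harmonic measure of `V`).  For almost no direction the radial limit `ζ ∈ ∂V`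
sees a point `w ∈ ball ζ (1 / L)` whose derivatives reach the size `L` at a time `n` with `∑ |(f^j)' w|⁻¹ ≤ L ^ p`.

Library: `Pool/Agent/AS` (definitions and statements in `AS/Defs.lean`; theorems `ctBound ctHolder ctHol ctSum` in `AS/Ct1`,
`AS/Ct2`, .., `etaHol` in `AS/Eta`, `extend` in `AS/Ext`, `orbit kill` in `AS/Kill`, `compImage compChain` in `AS/CompA`,
`fatInv fatOpen fatMontel` in `AS/FatA`, `AS/FatB`, `scA scB cover circ localInj`): import and use whatever you need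
from there, no hypotheses are necessary for it.

Module `X` proves `theorem thm_X (h.. : St_..) : St_X` in the file `Pool/Agent/HMZ/X.lean`, namespace `Pool.Agent.HMZ`.
-/

set_option autoImplicit false
set_option linter.unusedVariables false

noncomputable section

namespace Pool.Agent.HMZ

open Complex Metric Set Filter Topology MeasureTheory Pool.Agent.AS
open scoped ComplexConjugate

/-- the radial limit of `ψ` at `exp (i t)` is `ζ` -/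
def RL (ψ : ℂ → ℂ) (t : ℝ) (ζ : ℂ) : Prop :=
  Tendsto (fun s : ℝ => ψ (s * exp (t * I))) (𝓝[<] 1) (𝓝 ζ)

/-- near `ζ` there is a point whose derivatives reach the size `L / A` not too slowly -/
def BadP (f : ℂ → ℂ) (R₁ A L p : ℝ) (ζ : ℂ) : Prop :=
  ∃ w ∈ ball ζ (A / L), ∃ n : ℕ, (∀ j < n, ‖f^[j] w‖ < R₁) ∧ L ≤ A * ‖deriv (f^[n]) w‖ ∧
    ∑ j ∈ Finset.range n, ‖deriv (f^[j + 1]) w‖⁻¹ ≤ A * L ^ p

/-! ### A. Deformations -/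

/-- **Tail** (0.6 h).  All iterates are injective on a later image.

Proof.  Copy the first half of the proof of `AS.localInj` (`Pool/Agent/AS/Local.lean`): the sets `f^[j] '' V` are pairwise disjoint
and contained in `closedBall 0 R`, where `deriv f` has finitely many zeros, so there is `m` such that `deriv f` has no zero in
`f^[j] '' V` for `j ≥ m`.  Every `f^[j] '' V` is a `Comp` (`local_comp`), so it is simply connected (`compChain`, `sc_of scA scB`) and `f` is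
injective on `f^[j] '' V`, `j ≥ m` (`cover`; as in `localInj`).  So `f^[n]` is injective on `f^[m] '' V` by induction on `n`
(`f^[j] '' (f^[m] '' V) = f^[j + m] '' V`). -/
def St_Tail : Prop := ∀ (f : ℂ → ℂ) (R : ℝ) (V : Set ℂ), Differentiable ℂ f → (∃ z, deriv f z ≠ 0) →
  Comp f R V → (∀ n m : ℕ, n ≠ m → Disjoint (f^[n] '' V) (f^[m] '' V)) →
  ∃ m : ℕ, Comp f R (f^[m] '' V) ∧ ∀ n : ℕ, InjOn (f^[n]) (f^[m] '' V)

/-- **Kil** (0.6 h).  Killing coefficients, with a better decay near `0`.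

Proof.  Copy `AS.kill_tail` and `AS.kill` (`Pool/Agent/AS/Kill.lean`): `g = ∑ c i * η i` has vanishing derivatives at `0` up to the
order `N - 1` (the `c` exist by counting dimensions, normalise `max ‖c i‖ = 1`); Cauchy estimates: the Taylor coefficients satisfy
`‖a k‖ ≤ B / R' ^ k`, so `‖g z‖ ≤ B ∑_{k ≥ N} (‖z‖ / R') ^ k ≤ 2 B (‖z‖ / R') ^ N` for `‖z‖ ≤ R' / 2`. -/
def St_Kil : Prop := ∀ (N : ℕ) (R' : ℝ) (η : Fin (N + 1) → ℂ → ℂ), 0 < R' →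
  (∀ i, DifferentiableOn ℂ (η i) (ball 0 R')) →
  ∃ c : Fin (N + 1) → ℂ, (∀ i, ‖c i‖ ≤ 1) ∧ (∃ i, ‖c i‖ = 1) ∧
    ∀ B : ℝ, (∀ z ∈ ball (0 : ℂ) R', ‖∑ i, c i * η i z‖ ≤ B) →
      ∀ z : ℂ, ‖z‖ ≤ R' / 2 → ‖∑ i, c i * η i z‖ ≤ 2 * B * (‖z‖ / R') ^ N

/-- **Dsc** (1.2 h).  The Cauchy transform of a disc.

Proof.  `ct ν z = π⁻¹ ∫ ν u / (z - u)`.  Translate to `w = 0`: with `c = z - w`, `‖c‖ > a`, the claim is
`∫ over ‖v‖ ≤ a of 1 / (c - v) = π a ^ 2 / c`.  Polar coordinates (`Complex.integral_comp_polarCoord_symm`): the integral is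
`∫ over 0 < ρ ≤ a of ρ ∫ over -π < θ < π of 1 / (c - ρ exp (i θ))`, and the inner integral is `2 π / c` (mean value property of the
function `1 / (c - v)`, holomorphic for `‖v‖ < ‖c‖`: `DiffContOnCl.circleAverage` or `circleIntegral`); `∫ ρ = a ^ 2 / 2`.
(Another way: `1 / (c - v) = ∑ v ^ k / c ^ (k + 1)` converges uniformly on the disc and `∫ v ^ k = 0` for `k ≥ 1` by rotation by
`exp (i π / k)`; `Complex.volume_closedBall`.) -/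
def St_Dsc : Prop := ∀ (w z : ℂ) (a : ℝ), 0 < a → z ∉ closedBall w a →
  ct ((closedBall w a).indicator fun _ => (1 : ℂ)) z = (a : ℂ) ^ 2 / (z - w)

/-- **Inv** (0.8 h).  Invariant Beltrami coefficients.

Proof.  `AS.extend` (`Stmt_Ext`) for `W = V` gives `x`, `lam`.  Put `ν z = lam z * D.indicator 1 (x z)` for `‖z‖ ≤ ρ` and `ν z = 0` for
`‖z‖ > ρ`.  `Adm`: measurability and `‖ν z‖ ≤ 1` are clear.  Invariance at `z ∈ ball 0 R'` (so `‖z‖ ≤ ρ`, `‖f z‖ ≤ ρ`): if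
`deriv f z = 0` both sides are `0`; otherwise `lam z * deriv f z = lam (f z) * conj (deriv f z)`: if `lam z = 0` then `lam (f z) = 0`, both
sides are `0`; if `lam z ≠ 0` then `x (f z) = x z`.  On `V` (`⊆ closedBall 0 ρ`): `x z = z`, `lam z = 1`. -/
def St_Inv : Prop := ∀ (f : ℂ → ℂ) (V D : Set ℂ) (R' ρ : ℝ), Differentiable ℂ f → IsOpen V →
  (∀ n : ℕ, InjOn (f^[n]) V) → (∀ n m : ℕ, n ≠ m → Disjoint (f^[n] '' V) (f^[m] '' V)) →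
  MeasurableSet D → V ⊆ closedBall 0 ρ → R' ≤ ρ → (∀ z ∈ ball (0 : ℂ) R', ‖f z‖ ≤ ρ) →
  ∃ ν : ℂ → ℂ, Adm ν ρ ∧
    (∀ z ∈ ball (0 : ℂ) R', ν z * deriv f z = ν (f z) * conj (deriv f z)) ∧
    ∀ z ∈ V, ν z = D.indicator (fun _ => 1) z

/-- **Spl** (1 h, from `St_Dsc`).  The Cauchy transform near a disc.

Proof.  Let `D = closedBall w a`, `C` the constant of `ctBound` for `ρ`.  `S = ct (fun z => if z ∈ D then 0 else ν z)`; this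
coefficient is `Adm` with `ρ` and vanishes on `V`, so `S` is bounded by `C` and holomorphic on `V` (`ctHol`).  `ν` is the sum of it and the
indicator of `D` (`ν = 1` on `D ⊆ V`; the indicator is `Adm` with `ρ`: `ν z = 1 ≠ 0` on `D` gives `‖z‖ ≤ ρ`), so
`ct ν z = S z + a ^ 2 / (z - w)` by `ctSum` (with `Fin 2`) and `St_Dsc`. -/
def St_Spl : Prop := ∀ ρ : ℝ, ∃ C : ℝ, 0 < C ∧ ∀ (ν : ℂ → ℂ) (V : Set ℂ) (w : ℂ) (a : ℝ),
  Adm ν ρ → IsOpen V → 0 < a → closedBall w a ⊆ V →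
  (∀ z ∈ V, ν z = (closedBall w a).indicator (fun _ => 1) z) →
  ∃ S : ℂ → ℂ, DifferentiableOn ℂ S V ∧ (∀ z, ‖S z‖ ≤ C) ∧
    ∀ z ∉ closedBall w a, ct ν z = S z + (a : ℂ) ^ 2 / (z - w)

/-- **Pol** (0.8 h).  Polynomials with zeros on a circle.

Proof.  `β k = r * exp (2 π i k / (N + 1))` (`Complex.isPrimitiveRoot_exp`), `s = z - b`,
`P k z = ∑ over i in range (N + 1) of s ^ i * (β k) ^ (N - i)`, so `(s - β k) * P k z = s ^ (N + 1) - (β k) ^ (N + 1)` (`mul_geom_sum₂` or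
`Commute.geom_sum₂_mul`).  At `z = b + β k`: `P k = (N + 1) * (β k) ^ N`; for `j ≠ k`:
`(β k - β j) * P j (b + β k) = (β k) ^ (N + 1) - (β j) ^ (N + 1) = 0` and `β k ≠ β j`.  Bound: `N + 1` terms of norm `≤ M ^ N`. -/
def St_Pol : Prop := ∀ (N : ℕ) (b : ℂ) (r : ℝ), 0 < r →
  ∃ (β : Fin (N + 1) → ℂ) (P : Fin (N + 1) → ℂ → ℂ), (∀ k, ‖β k‖ = r) ∧
    (∀ k, Differentiable ℂ (P k)) ∧
    (∀ k z, (z - (b + β k)) * P k z = (z - b) ^ (N + 1) - (r : ℂ) ^ (N + 1)) ∧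
    (∀ k, ‖P k (b + β k)‖ = (N + 1) * r ^ N) ∧ (∀ k j, j ≠ k → P j (b + β k) = 0) ∧
    ∀ (k : Fin (N + 1)) (z : ℂ) (M : ℝ), ‖z - b‖ ≤ M → r ≤ M → ‖P k z‖ ≤ (N + 1) * M ^ N

/-- **Dat** (2 h, from `St_Kil`, `St_Inv`, `St_Spl`, `St_Pol`).  The vector field `ξ` and the function `G = P ξ`.

Proof.  `R' = lam * R₁ + 1 > R₁`, `ρ ≥ R'`, `ρ ≥ R₁` and `‖f z‖ ≤ ρ` on `closedBall 0 R'`.  Let `C₀` be larger than the constants of `ctBound ρ`,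
`ctHolder ρ (1/2)`, `St_Spl ρ`, and `M₁` a bound of `‖deriv f‖` on `closedBall 0 R'`; all these depend only on `f, R₁, lam`.  Given `N`: `β`, `P`
from `St_Pol`, `D k = closedBall (b + β k) r ⊆ closedBall b (2 r) ⊆ V`, `ν k` from `St_Inv` for `D k`, `S k` from `St_Spl`
(`w = b + β k`, `a = r`).  `η k z = ct (ν k) (f z) - deriv f z * ct (ν k) z` is holomorphic on `ball 0 R'` (`etaHol`) and bounded by
`C₀ (1 + M₁)`.  `c` from `St_Kil` for `R'`.  `ξ z = ∑ c k * ct (ν k) z`: continuous, bounded by `(N + 1) C₀`, Hoelder with the constant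
`(N + 1) C₀`, and `‖ξ (f z) - deriv f z * ξ z‖ = ‖∑ c k * η k z‖ ≤ 2 (N + 1) C₀ (1 + M₁) (‖z‖ / R') ^ N ≤ .. lam⁻¹ ^ N` for `‖z‖ ≤ R₁`
(`‖z‖ / R' ≤ R₁ / (lam R₁) = lam⁻¹`, `R₁ ≤ R' / 2`).
`G z = ((z - b) ^ (N + 1) - r ^ (N + 1)) * ∑ c k * S k z + r ^ 2 * ∑ c k * P k z`, holomorphic on `V`.  For `z ∈ V`: `‖z - b‖ ≤ 2 R₁` and `r ≤ R₁`
(`2 r ≤ R₁`... from `closedBall b (2 r) ⊆ closedBall 0 R₁`; only `r ≤ R₁` is needed), so `‖P z‖ ≤ (2 R₁) ^ (N + 1) + R₁ ^ (N + 1) ≤ (4 R₁) ^ (N + 1)` and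
`‖P k z‖ ≤ (N + 1) (2 R₁) ^ N ≤ (4 R₁) ^ (N + 1)` (`N + 1 ≤ 2 ^ N * 2`); so `‖G z‖ ≤ (N + 1) (C₀ + r ^ 2) (4 R₁) ^ (N + 1)`.  For
`z ∉ closedBall b (2 r)`: `z ∉ D k` for all `k`, `(z - b)^(N+1) - r^(N+1) = (z - (b + β k)) * P k z`, so
`G z = ((z - b) ^ (N + 1) - r ^ (N + 1)) * ξ z`.  For `k` with `‖c k‖ = 1`: `G (b + β k) = r ^ 2 * c k * P k (b + β k)` has norm
`(N + 1) r ^ (N + 2) ≥ r ^ (N + 2)`.  `C = ` the maximum of the constants (`2 C₀ (1 + M₁) + C₀ + r ^ 2 + 1`). -/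
def St_Dat : Prop := ∀ (f : ℂ → ℂ) (V : Set ℂ) (b : ℂ) (r R₁ lam : ℝ), Differentiable ℂ f →
  (∃ z, deriv f z ≠ 0) → IsOpen V → V ⊆ closedBall 0 R₁ → (∀ n : ℕ, InjOn (f^[n]) V) →
  (∀ n m : ℕ, n ≠ m → Disjoint (f^[n] '' V) (f^[m] '' V)) → 0 < r → closedBall b (2 * r) ⊆ V →
  1 ≤ R₁ → 2 ≤ lam →
  ∃ C : ℝ, 0 < C ∧ ∀ N : ℕ, ∃ (ξ G : ℂ → ℂ) (k : ℂ), Continuous ξ ∧ (∀ z, ‖ξ z‖ ≤ C * (N + 1)) ∧
    (∀ z w, ‖ξ z - ξ w‖ ≤ C * (N + 1) * ‖z - w‖ ^ (1 / 2 : ℝ)) ∧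
    (∀ z, ‖z‖ ≤ R₁ → ‖ξ (f z) - deriv f z * ξ z‖ ≤ C * (N + 1) * lam⁻¹ ^ N) ∧
    DifferentiableOn ℂ G V ∧ (∀ z ∈ V, ‖G z‖ ≤ C * (N + 1) * (4 * R₁) ^ (N + 1)) ∧
    (∀ z ∈ V, z ∉ closedBall b (2 * r) → ‖G z‖ ≤ (4 * R₁) ^ (N + 1) * ‖ξ z‖) ∧
    k ∈ closedBall b (2 * r) ∧ r ^ (N + 2) ≤ ‖G k‖

/-- **Bad** (1 h).  The vector field is small at bad points.

Proof.  Let `w`, `n` be as in `BadP`.  `‖(f^n)' w‖ ≥ L / A > 0`.  `AS.orbit` (`Stmt_Orbit`):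
`‖ξ w‖ ≤ C (N + 1) A / L + C (N + 1) lam⁻¹ ^ N * A L ^ p` (the points `f^[j] w`, `j < n`, have norm `< R₁`).  As `L ^ (p + 1) < lam ^ (N + 1)`:
`lam⁻¹ ^ N * L ^ p < lam / L`.  So `‖ξ w‖ ≤ C (N + 1) A (1 + lam) / L ≤ C (N + 1) A (1 + lam) L ^ (-1/2)`.
`‖ξ ζ - ξ w‖ ≤ C (N + 1) (A / L) ^ (1/2) ≤ C (N + 1) A L ^ (-1/2)` (`A ≥ 1`).  `C' = C A (2 + lam)`. -/
def St_Bad : Prop := ∀ (f : ℂ → ℂ) (R₁ A p C lam : ℝ), Differentiable ℂ f → 1 ≤ A → 0 ≤ p → 0 < C →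
  2 ≤ lam → ∃ C' : ℝ, 0 < C' ∧ ∀ (N : ℕ) (L : ℝ) (ξ : ℂ → ℂ), 1 ≤ L →
    L ^ (p + 1) < lam ^ (N + 1) → (∀ z, ‖ξ z‖ ≤ C * (N + 1)) →
    (∀ z w, ‖ξ z - ξ w‖ ≤ C * (N + 1) * ‖z - w‖ ^ (1 / 2 : ℝ)) →
    (∀ z, ‖z‖ ≤ R₁ → ‖ξ (f z) - deriv f z * ξ z‖ ≤ C * (N + 1) * lam⁻¹ ^ N) →
    ∀ ζ, BadP f R₁ A L p ζ → ‖ξ ζ‖ ≤ C' * (N + 1) * L ^ (-(1 / 2) : ℝ)

/-! ### B. Two constants -/

/-- **PJ** (1.5 h).  The Poisson-Jensen inequality.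

Proof.  Follow the proof of `MeromorphicOn.circleAverage_log_norm` in Mathlib (`Analysis/Complex/JensenFormula.lean`).  `g` is not
identically zero near any point of the (connected) closed ball as `g w ≠ 0`.  `MeromorphicOn.extract_zeros_poles` gives `g₁` analytic
without zeros and (`extract_zeros_poles_log`) `log ‖g ·‖ = ∑ᶠ D u * log ‖· - u‖ + log ‖g₁ ·‖` on a codiscrete subset, `D ≥ 0` the divisor.
Multiply by the kernel and take circle averages (`circleAverage_congr_codiscreteWithin`).  `log ‖g₁ ·‖` is harmonic near the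
closed ball: `InnerProductSpace.HarmonicOnNhd.circleAverage_poissonKernel_smul` gives `log ‖g₁ w‖`.  For every zero `v` of `g`:
`circleAverage (P * log ‖· - v‖) ≥ log ‖w - v‖`: for `‖v‖ = u` equality is `circleAverage_re_herglotzRieszKernel_mul_log`
(`poissonKernel_eq_re_herglotzRieszKernel`); for `‖v‖ < u` one has `‖z - v‖ = ‖u ^ 2 - conj v * z‖ / u` for `‖z‖ = u`, the logarithm of the right side is harmonic
near the closed ball, so the average is `log (‖u ^ 2 - conj v * w‖ / u)`, which is `≥ log ‖w - v‖`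
(`‖u ^ 2 - conj v * w‖ ^ 2 - u ^ 2 ‖w - v‖ ^ 2 = (u ^ 2 - ‖v‖ ^ 2) (u ^ 2 - ‖w‖ ^ 2) ≥ 0`).  Finally
`log ‖g w‖ = ∑ᶠ D v * log ‖w - v‖ + log ‖g₁ w‖` (`MeromorphicOn.log_norm_meromorphicTrailingCoeffAt_extract_zeros_poles` at the point `w`, where
the trailing coefficient is `g w`).  Integrability: `MeromorphicOn.circleIntegrable_log_norm` and continuity of the kernel on the
circle. -/
def St_PJ : Prop := ∀ (g : ℂ → ℂ) (u : ℝ) (w : ℂ), 0 < u → AnalyticOnNhd ℂ g (closedBall 0 u) →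
  w ∈ ball (0 : ℂ) u → g w ≠ 0 →
  CircleIntegrable (fun z => poissonKernel 0 w z * Real.log ‖g z‖) 0 u ∧
    Real.log ‖g w‖ ≤ Real.circleAverage (fun z => poissonKernel 0 w z * Real.log ‖g z‖) 0 u

/-- **TCu** (1.2 h, from `St_PJ`).  Two constants on one circle.

Proof.  If `g w = 0` the claim is trivial.  The average of the kernel is `1` (Poisson formula for the constant `1`), so by `St_PJ`
`log (‖g w‖ / M) ≤ circleAverage (P * (log ‖g ·‖ - log M))`.  Outside of a finite subset of the circle `g ≠ 0` (change the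
function `log ‖g ·‖` there to `log m`: same average, `circleAverage_congr_codiscreteWithin`; or work almost everywhere in `θ`), and there
`log ‖g‖ - log M ≤ 0`, and `≤ log (m / M) ≤ 0` at the angles in `T`.  The kernel is `≥ (u - ρ) / (u + ρ) ≥ (1 - ρ) / 4` (`le_re_herglotzRieszKernel`; `‖w‖ ≤ ρ`,
`u ≥ (1 + ρ) / 2`, `u < 1`).  So the average is `≤ (2 π)⁻¹ (1 - ρ) / 4 * volume T * log (m / M)`. -/
def St_TCu : Prop := ∀ (ρ u M m : ℝ) (g : ℂ → ℂ) (T : Set ℝ) (w : ℂ), 0 < ρ → ρ < 1 →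
  (1 + ρ) / 2 ≤ u → u < 1 → DifferentiableOn ℂ g (ball 0 1) → (∀ z ∈ ball (0 : ℂ) 1, ‖g z‖ ≤ M) →
  0 < m → m ≤ M → MeasurableSet T → T ⊆ Icc 0 (2 * Real.pi) →
  (∀ t ∈ T, ‖g (u * exp (t * I))‖ ≤ m) → ‖w‖ ≤ ρ →
  ‖g w‖ ≤ M * (m / M) ^ ((1 - ρ) / (8 * Real.pi) * (volume T).toReal)

/-- **TC** (1 h, from `St_TCu`).  Two constants with radial limits (`T` need not be measurable: outer measure).

Proof.  `κ = (1 - ρ) / (8 π)`, `u n = 1 - 1 / (n + 2)`, `T n = {t ∈ Icc 0 (2 π) | ∀ k ≥ n, ‖g (u k * exp (t * I))‖ ≤ m}` is closed,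
increasing in `n`, and `T ⊆ ⋃ T n`.  So `volume (T n)` tends to `volume (⋃ T n) ≥ volume T`.  `St_TCu` for `u n`, `T n`, `n` large; let `n → ∞`
(`m / M ≤ 1`, the exponent is continuous). -/
def St_TC : Prop := ∀ ρ : ℝ, 0 < ρ → ρ < 1 → ∃ κ : ℝ, 0 < κ ∧ ∀ (M m : ℝ) (g : ℂ → ℂ) (T : Set ℝ),
  DifferentiableOn ℂ g (ball 0 1) → (∀ z ∈ ball (0 : ℂ) 1, ‖g z‖ ≤ M) → 0 < m → m ≤ M →
  T ⊆ Icc 0 (2 * Real.pi) → (∀ t ∈ T, ∀ᶠ s : ℝ in 𝓝[<] 1, ‖g (s * exp (t * I))‖ ≤ m) →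
  ∀ w : ℂ, ‖w‖ ≤ ρ → ‖g w‖ ≤ M * (m / M) ^ (κ * (volume T).toReal)

/-! ### C. The theorem -/

/-- **Num** (1 h).  The choice of `lam`.

Proof.  Choose `lam ≥ 2` with `Λ := lam ^ (κ h / (2 (p + 1))) ≥ 16 R₁ / r` and `Λ ≥ 4`.  Let `C, C' > 0`.  If `lam ^ N ≤ L ^ (p + 1)` then
`L ^ (κ h / 2) ≥ Λ ^ N`, so the left side of the last inequality is
`C (N + 1) (4 R₁) ^ (N + 1) (2 C' / C) ^ (κ h) L ^ (- κ h / 2) ≤ K (N + 1) (4 R₁) ^ N / Λ ^ N ≤ K (N + 1) (r / 4) ^ N < r ^ (N + 2)` as soon as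
`K (N + 1) < r ^ 2 4 ^ N`, i.e. for `N ≥ N₀`; `N → ∞` for `L → ∞` because of `L ^ (p + 1) < lam ^ (N + 1)`: take
`L₀ ^ (p + 1) ≥ lam ^ (N₀ + 1)`, and `L₀ ^ (1/2) ≥ 2 C' / C`. -/
def St_Num : Prop := ∀ κ h r R₁ p : ℝ, 0 < κ → 0 < h → 0 < r → 1 ≤ R₁ → 0 ≤ p →
  ∃ lam : ℝ, 2 ≤ lam ∧ ∀ C C' : ℝ, 0 < C → 0 < C' → ∃ L₀ : ℝ, 1 ≤ L₀ ∧ ∀ L : ℝ, L₀ ≤ L →
    ∀ N : ℕ, lam ^ N ≤ L ^ (p + 1) → L ^ (p + 1) < lam ^ (N + 1) →
    2 * C' * L ^ (-(1 / 2) : ℝ) ≤ C ∧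
      C * (N + 1) * (4 * R₁) ^ (N + 1) * (2 * C' * L ^ (-(1 / 2) : ℝ) / C) ^ (κ * h) < r ^ (N + 2)

/-- **Opn** (0.6 h).  The open mapping theorem.

Proof.  `ψ` has a nonzero derivative at `w₀`, so it is open at `w₀` (`HasStrictDerivAt.map_nhds_eq`, or
`AnalyticAt.eventually_constant_or_nhds_le_map_nhds`): with `ρ = (1 + ‖w₀‖) / 2` the set `ψ '' closedBall 0 ρ` is a neighbourhood of
`b = ψ w₀`; also `V` is. -/
def St_Opn : Prop := ∀ (ψ : ℂ → ℂ) (V : Set ℂ), IsOpen V → DifferentiableOn ℂ ψ (ball 0 1) →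
  MapsTo ψ (ball 0 1) V → (∃ w ∈ ball (0 : ℂ) 1, deriv ψ w ≠ 0) →
  ∃ (b : ℂ) (r ρ : ℝ), 0 < r ∧ 0 < ρ ∧ ρ < 1 ∧ closedBall b (2 * r) ⊆ V ∧
    ∀ k ∈ closedBall b (2 * r), ∃ w : ℂ, ‖w‖ ≤ ρ ∧ ψ w = k

/-- **Cor** (1.5 h, from `St_Dat`, `St_Bad`, `St_TC`, `St_Num`, `St_Opn`).  The case of injective iterates.

Proof.  `b, r, ρ` from `St_Opn`, `κ` from `St_TC`, `lam` from `St_Num`, `C` from `St_Dat`, `C'` from `St_Bad`, `L₀` from `St_Num`.  Let `L ≥ L₀`,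
`N` with `lam ^ N ≤ L ^ (p + 1) < lam ^ (N + 1)` (`exists_nat_pow_near`), `ξ, G, k` from `St_Dat`, `T` the set in the statement; suppose
its measure is `> h`.  `g = G ∘ ψ`, `M = C (N + 1) (4 R₁) ^ (N + 1)`, `m = 2 C' (N + 1) (4 R₁) ^ (N + 1) L ^ (-1/2) ≤ M`.  Let `t ∈ T` with the radial
limit `ζ ∉ V`: near `1` the points `ψ (s exp (t I))` are in `V`, not in the closed set `closedBall b (2 r) ⊆ V`, so
`‖g (s exp (t I))‖ ≤ (4 R₁) ^ (N + 1) ‖ξ (ψ ..)‖`, which tends to `(4 R₁) ^ (N + 1) ‖ξ ζ‖ ≤ m / 2` (`St_Bad`), so it is `≤ m` near `1`.  `St_TC` at `w` with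
`ψ w = k`: `r ^ (N + 2) ≤ ‖g w‖ ≤ M (m / M) ^ (κ * volume T) ≤ M (m / M) ^ (κ h)` (`m ≤ M`), `m / M = 2 C' L ^ (-1/2) / C`: contradiction to
`St_Num`. -/
def St_Cor : Prop := ∀ (f : ℂ → ℂ) (R₁ : ℝ) (V : Set ℂ), Differentiable ℂ f →
  (∃ z, deriv f z ≠ 0) → IsOpen V → V ⊆ closedBall 0 R₁ → 1 ≤ R₁ → (∀ n : ℕ, InjOn (f^[n]) V) →
  (∀ n m : ℕ, n ≠ m → Disjoint (f^[n] '' V) (f^[m] '' V)) →
  ∀ ψ : ℂ → ℂ, DifferentiableOn ℂ ψ (ball 0 1) → MapsTo ψ (ball 0 1) V →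
  (∃ w ∈ ball (0 : ℂ) 1, deriv ψ w ≠ 0) → ∀ A p h : ℝ, 1 ≤ A → 0 ≤ p → 0 < h →
  ∃ L₀ : ℝ, ∀ L : ℝ, L₀ ≤ L →
    volume {t ∈ Icc 0 (2 * Real.pi) | ∃ ζ ∉ V, RL ψ t ζ ∧ BadP f R₁ A L p ζ} ≤ ENNReal.ofReal h

/-- **Gen** (1.5 h, from `St_Tail`, `St_Cor`).  The general case.

Proof.  `m` from `St_Tail`, `V' = f^[m] '' V`, `ψ' = f^[m] ∘ ψ`.  `V'` is open, `⊆ closedBall 0 R ⊆ closedBall 0 R₁`, its images are disjoint.  `ψ'` has a nonzero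
derivative somewhere in the disc: `deriv f^[m]` is entire and not identically zero, so its zeros are isolated, `ψ'.deriv = deriv f^[m] (ψ w) * deriv ψ w`, and
`deriv ψ w ≠ 0` on a neighbourhood of some point, on which `ψ` takes infinitely many values.  Let `K` be the closed ball with radius `R + 1`,
`M₂ ≥ 1` a bound of `‖deriv f^[i]‖`, `i ≤ m`, on `K`, `A = M₂ + 1`.  Let `ζ ∈ frontier V`, `RL ψ t ζ`, `BadP f R₁ 1 L p ζ` with `w`, `n`, and `L > M₂`,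
`L ≥ 1`.  `‖ζ‖ ≤ R`, `w ∈ K`, `n > m` (otherwise `L ≤ M₂`), `ζ' = f^[m] ζ`, `w' = f^[m] w`: `RL ψ' t ζ'` (continuity), `ζ' ∉ V'`
(`V' ⊆ Fat f`, `ζ ∉ Fat f` by `Comp.fr`, `fatInv`), `‖w' - ζ'‖ ≤ M₂ ‖w - ζ‖ < A / L` (mean value inequality on the convex `K`),
`deriv f^[n] w = deriv f^[n - m] w' * deriv f^[m] w`, so `L ≤ M₂ ‖deriv f^[n - m] w'‖`, the points `f^[j] w' = f^[j + m] w`, `j < n - m`, are in `ball 0 R₁`, and
`∑_{j < n - m} ‖deriv f^[j + 1] w'‖⁻¹ = ‖deriv f^[m] w‖ ∑ ‖deriv f^[j + 1 + m] w‖⁻¹ ≤ M₂ L ^ p` (a part of the sum for `w`).  So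
`BadP f R₁ A L p ζ'`; `St_Cor` for `V'`, `ψ'` (monotonicity of the outer measure). -/
def St_Gen : Prop := ∀ (f : ℂ → ℂ) (R R₁ : ℝ) (V : Set ℂ), Differentiable ℂ f →
  (∃ z, deriv f z ≠ 0) → Comp f R V → (∀ n m : ℕ, n ≠ m → Disjoint (f^[n] '' V) (f^[m] '' V)) →
  R ≤ R₁ → 1 ≤ R₁ → ∀ ψ : ℂ → ℂ, DifferentiableOn ℂ ψ (ball 0 1) → MapsTo ψ (ball 0 1) V →
  (∃ w ∈ ball (0 : ℂ) 1, deriv ψ w ≠ 0) → ∀ p h : ℝ, 0 ≤ p → 0 < h →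
  ∃ L₀ : ℝ, ∀ L : ℝ, L₀ ≤ L →
    volume {t ∈ Icc 0 (2 * Real.pi) | ∃ ζ ∈ frontier V, RL ψ t ζ ∧ BadP f R₁ 1 L p ζ} ≤
      ENNReal.ofReal h

/-- **Sum** (1.2 h, from `St_Gen`).  Almost everywhere the sums diverge.

Proof.  If `∑ a_n ^ (-δ)` converges (`a_n = ‖deriv f^[n] ζ‖ > 0`) then `a_n → ∞`, so `∑ a_n ^ (-q)` converges for every `q ≥ δ`: the set is contained in the
union over the positive integers `q` of the sets `E q` where `∑ a_n ^ (-q)` converges.  Fix `q`, `p = q + 1`, `R₁ = max (R + 1) 1`.  Let `t ∈ E q`, `ζ` the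
radial limit, `S = ∑ a_n ^ (-q)`; `‖f^[j] ζ‖ ≤ R < R₁` (continuity).  For `L ≥ 1` let `n` be the least index with `a_n ≥ L`.  For `j < n`:
`a_j ^ (-q) > L ^ (-q)`, so `n ≤ S L ^ q`; every `a_j⁻¹ ≤ max 1 S` (`a_j ^ (-q) ≤ S`, `q ≥ 1`).  So
`∑_{j < n} a_(j+1)⁻¹ ≤ S L ^ q max 1 S ≤ L ^ p` for `L ≥ S max 1 S`.  So (with `w = ζ`) `BadP f R₁ 1 L p ζ` for all large `L`:
`E q ⊆ ⋃_k ⋂_{L ≥ k} Bad_L`, and every `⋂_{L ≥ k} Bad_L` has measure `≤ h` for all `h > 0`. -/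
def St_Sum : Prop := ∀ (f : ℂ → ℂ) (R : ℝ) (V : Set ℂ), Differentiable ℂ f →
  (∃ z, deriv f z ≠ 0) → Comp f R V → (∀ n m : ℕ, n ≠ m → Disjoint (f^[n] '' V) (f^[m] '' V)) →
  ∀ ψ : ℂ → ℂ, DifferentiableOn ℂ ψ (ball 0 1) → MapsTo ψ (ball 0 1) V →
  (∃ w ∈ ball (0 : ℂ) 1, deriv ψ w ≠ 0) →
  volume {t ∈ Icc 0 (2 * Real.pi) | ∃ ζ ∈ frontier V, RL ψ t ζ ∧ (∀ n, deriv (f^[n]) ζ ≠ 0) ∧
    ∃ δ > (0 : ℝ), Summable fun n => ‖deriv (f^[n]) ζ‖ ^ (-δ)} = 0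

/-- **Bal** (1.2 h, from `St_Gen`).  Balls of radius `exp (- ε m)` stay bounded up to the time `m`.

Proof.  Let `R₁ = max (R + 1) 1`, `M₁ ≥ 1` a bound of `‖deriv f‖` on `closedBall 0 (R + 1)`, `L = exp (ε m)`, `p = log (2 M₁) / ε ≥ 0`, so
`L ^ p = (2 M₁) ^ m`.  Let `ζ ∈ frontier V` (so `‖f^[i] ζ‖ ≤ R` for all `i`), `w ∈ ball ζ (exp (- ε m))`, `j ≤ m`, `‖f^[j] w‖ ≥ R + 1`.  Let `j'` be the least
index such that `‖f^[j'] v‖ ≥ R + 1` for some `v` in the segment `[ζ, w]`; `j' ≤ m`, and `‖f^[i] x‖ < R + 1` for `i < j'` and `x` in the segment.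
As `‖f^[j'] v - f^[j'] ζ‖ ≥ 1` and `‖v - ζ‖ < 1 / L`, the mean value inequality gives `w'` in the segment with `‖deriv f^[j'] w'‖ ≥ L` (otherwise `‖deriv‖ < L` on
the segment, so the difference is `< 1`).  For `i + 1 ≤ j'`: `‖deriv f^[j'] w'‖ ≤ M₁ ^ (j' - i - 1) ‖deriv f^[i + 1] w'‖` (chain rule), so
`‖deriv f^[i + 1] w'‖⁻¹ ≤ M₁ ^ m / L ≤ M₁ ^ m` and the sum over `i < j'` is `≤ m M₁ ^ m ≤ (2 M₁) ^ m = L ^ p`.  So `BadP f R₁ 1 L p ζ`.  Now `St_Gen`: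
for every `h > 0` the measure is `≤ h` for all large `m`. -/
def St_Bal : Prop := ∀ (f : ℂ → ℂ) (R : ℝ) (V : Set ℂ), Differentiable ℂ f →
  (∃ z, deriv f z ≠ 0) → Comp f R V → (∀ n m : ℕ, n ≠ m → Disjoint (f^[n] '' V) (f^[m] '' V)) →
  ∀ ψ : ℂ → ℂ, DifferentiableOn ℂ ψ (ball 0 1) → MapsTo ψ (ball 0 1) V →
  (∃ w ∈ ball (0 : ℂ) 1, deriv ψ w ≠ 0) → ∀ ε > (0 : ℝ),
  Tendsto (fun m : ℕ => volume {t ∈ Icc 0 (2 * Real.pi) | ∃ ζ ∈ frontier V, RL ψ t ζ ∧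
    ∃ w ∈ ball ζ (Real.exp (-(ε * m))), ∃ j ≤ m, R + 1 ≤ ‖f^[j] w‖}) atTop (𝓝 0)

end Pool.Agent.HMZ
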