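import Pool.Agent.HMZ.St

/-!
# HMZ, module Sum (helper17): almost everywhere the sums diverge
-/

set_option autoImplicit false

noncomputable section

namespace Pool.Agent.HMZ

open Complex Metric Set Filter Topology MeasureTheory Pool.Agent.AS

/-- a convergent sum of `a_n ^ (-q)` controls the sum up to the first time when `a_n ≥ L` -/
theorem sum_first (a : ℕ → ℝ) (ha : ∀ n, 0 < a n) (q : ℕ) (hq : 1 ≤ q)
    (hs : Summable fun n => a n ^ (-(q : ℝ))) :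
    ∃ L₀ : ℝ, ∀ L : ℝ, L₀ ≤ L → 1 ≤ L → ∃ n : ℕ, L ≤ a n ∧
      ∑ j ∈ Finset.range n, (a (j + 1))⁻¹ ≤ L ^ ((q : ℝ) + 1) := by
  obtain ⟨S, hS⟩ : ∃ S : ℝ, S = ∑' n, a n ^ (-(q : ℝ)) := ⟨_, rfl⟩
  have hpos : ∀ n, 0 ≤ a n ^ (-(q : ℝ)) := fun n => Real.rpow_nonneg (ha n).le _
  have hSn : ∀ s : Finset ℕ, ∑ n ∈ s, a n ^ (-(q : ℝ)) ≤ S := fun s => by
    rw [hS]
    exact hs.sum_le_tsum s fun n _ => hpos n
  have hS0 : 0 ≤ S := by simpa using hSn ∅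
  have hq0 : (0 : ℝ) < q := by exact_mod_cast hq
  have hqz : (q : ℝ) ≠ 0 := hq0.ne'
  -- each inverse is bounded
  have hinv : ∀ n, (a n)⁻¹ ≤ max 1 S := by
    intro n
    by_cases h1 : (a n)⁻¹ ≤ 1
    · exact h1.trans (le_max_left _ _)
    · push Not at h1
      have h2 : (a n)⁻¹ ≤ (a n)⁻¹ ^ q := le_self_pow₀ h1.le (by omega)
      have h3 : (a n)⁻¹ ^ q = a n ^ (-(q : ℝ)) := by
        rw [Real.rpow_neg (ha n).le, Real.rpow_natCast, inv_pow]
      have h4 := hSn {n}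
      rw [Finset.sum_singleton] at h4
      rw [h3] at h2
      exact (h2.trans h4).trans (le_max_right _ _)
  refine ⟨S * max 1 S, fun L hL hL1 => ?_⟩
  have hL0 : 0 < L := by linarith
  have hLq : 0 < L ^ (q : ℝ) := Real.rpow_pos_of_pos hL0 _
  have hex : ∃ n, L ≤ a n := by
    by_contra hne
    push Not at hne
    have h1 : ∀ n, L ^ (-(q : ℝ)) ≤ a n ^ (-(q : ℝ)) := fun n =>
      Real.rpow_le_rpow_of_nonpos (ha n) (hne n).le (by linarith)
    have h2 := hs.tendsto_atTop_zero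
    have h3 : L ^ (-(q : ℝ)) ≤ 0 := le_of_tendsto_of_tendsto' tendsto_const_nhds h2 h1
    have h4 : 0 < L ^ (-(q : ℝ)) := Real.rpow_pos_of_pos hL0 _
    linarith
  classical
  refine ⟨Nat.find hex, Nat.find_spec hex, ?_⟩
  set n := Nat.find hex with hn
  have hlt : ∀ j < n, a j < L := fun j hj => not_le.1 (Nat.find_min hex hj)
  have hcount : (n : ℝ) * L ^ (-(q : ℝ)) ≤ S := by
    calc (n : ℝ) * L ^ (-(q : ℝ)) = ∑ _j ∈ Finset.range n, L ^ (-(q : ℝ)) := by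
          rw [Finset.sum_const, Finset.card_range, nsmul_eq_mul]
      _ ≤ ∑ j ∈ Finset.range n, a j ^ (-(q : ℝ)) := by
          refine Finset.sum_le_sum fun j hj => ?_
          exact Real.rpow_le_rpow_of_nonpos (ha j) (hlt j (Finset.mem_range.1 hj)).le (by linarith)
      _ ≤ S := hSn _
  have hn2 : (n : ℝ) ≤ S * L ^ (q : ℝ) := by
    rw [Real.rpow_neg hL0.le] at hcount
    have h5 := mul_le_mul_of_nonneg_right hcount hLq.le
    rwa [mul_assoc, inv_mul_cancel₀ hLq.ne', mul_one] at h5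
  have hmax : 0 ≤ max 1 S := le_trans zero_le_one (le_max_left _ _)
  calc ∑ j ∈ Finset.range n, (a (j + 1))⁻¹ ≤ ∑ _j ∈ Finset.range n, max 1 S :=
        Finset.sum_le_sum fun j _ => hinv (j + 1)
    _ = n * max 1 S := by rw [Finset.sum_const, Finset.card_range, nsmul_eq_mul]
    _ ≤ S * L ^ (q : ℝ) * max 1 S := mul_le_mul_of_nonneg_right hn2 hmax
    _ = (S * max 1 S) * L ^ (q : ℝ) := by ring
    _ ≤ L * L ^ (q : ℝ) := mul_le_mul_of_nonneg_right hL hLq.le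
    _ = L ^ ((q : ℝ) + 1) := by rw [Real.rpow_add hL0, Real.rpow_one, mul_comm]

theorem thm_Sum (hGen : St_Gen) : St_Sum := by
  intro f R V hf hf' hV hdis ψ hψ hψV hψ'
  set R₁ : ℝ := max (R + 1) 1 with hR₁
  have hRR : R < R₁ := by
    have := le_max_left (R + 1) (1 : ℝ)
    linarith
  -- the frontier is mapped into the disc of radius `R`
  have hfr : ∀ ζ ∈ frontier V, ∀ j : ℕ, ‖f^[j] ζ‖ ≤ R := by
    intro ζ hζ j
    have h1 : V ⊆ (fun z => ‖f^[j] z‖) ⁻¹' Iic R := fun z hz => hV.bd j z hz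
    have h2 : IsClosed ((fun z => ‖f^[j] z‖) ⁻¹' Iic R) :=
      isClosed_Iic.preimage (hf.continuous.iterate j).norm
    exact closure_minimal h1 h2 (frontier_subset_closure hζ)
  have key : ∀ (q : ℕ) (k : ℕ), volume {t ∈ Icc 0 (2 * Real.pi) | ∃ ζ ∈ frontier V, RL ψ t ζ ∧
      ∀ L : ℝ, (k : ℝ) ≤ L → BadP f R₁ 1 L ((q : ℝ) + 1) ζ} = 0 := by
    intro q k
    have h1 : ∀ n : ℕ, volume {t ∈ Icc 0 (2 * Real.pi) | ∃ ζ ∈ frontier V, RL ψ t ζ ∧
        ∀ L : ℝ, (k : ℝ) ≤ L → BadP f R₁ 1 L ((q : ℝ) + 1) ζ} ≤ ENNReal.ofReal (1 / ((n : ℝ) + 1)) := by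
      intro n
      obtain ⟨L₀, hL₀⟩ := hGen f R R₁ V hf hf' hV hdis hRR.le (le_max_right _ _) ψ hψ hψV hψ'
        ((q : ℝ) + 1) (1 / ((n : ℝ) + 1)) (by positivity) (by positivity)
      refine (measure_mono ?_).trans (hL₀ (max L₀ k) (le_max_left _ _))
      rintro t ⟨ht, ζ, hζ, h2, h3⟩
      exact ⟨ht, ζ, hζ, h2, h3 _ (le_max_right _ _)⟩
    have h2 : Tendsto (fun n : ℕ => ENNReal.ofReal (1 / ((n : ℝ) + 1))) atTop (𝓝 (ENNReal.ofReal 0)) :=
      ENNReal.tendsto_ofReal tendsto_one_div_add_atTop_nhds_zero_nat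
    rw [ENNReal.ofReal_zero] at h2
    exact nonpos_iff_eq_zero.1 (ge_of_tendsto' h2 h1)
  have hnull : volume (⋃ q : ℕ, ⋃ k : ℕ, {t ∈ Icc 0 (2 * Real.pi) | ∃ ζ ∈ frontier V, RL ψ t ζ ∧
      ∀ L : ℝ, (k : ℝ) ≤ L → BadP f R₁ 1 L ((q : ℝ) + 1) ζ}) = 0 :=
    measure_iUnion_null fun q => measure_iUnion_null fun k => key q k
  refine measure_mono_null ?_ hnull
  rintro t ⟨ht, ζ, hζ, hRL, hne, δ, hδ, hsum⟩
  have ha : ∀ n, 0 < ‖deriv (f^[n]) ζ‖ := fun n => norm_pos_iff.2 (hne n)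
  obtain ⟨q, hq⟩ := exists_nat_ge (max δ 1)
  have hq1 : 1 ≤ q := by
    have : (1 : ℝ) ≤ q := (le_max_right _ _).trans hq
    exact_mod_cast this
  have hqδ : δ ≤ q := (le_max_left _ _).trans hq
  have hsq : Summable fun n => ‖deriv (f^[n]) ζ‖ ^ (-(q : ℝ)) := by
    -- eventually the derivatives are at least one
    have h1 := hsum.tendsto_atTop_zero
    have h2 : ∀ᶠ n in atTop, ‖deriv (f^[n]) ζ‖ ^ (-δ) < 1 := h1.eventually (gt_mem_nhds one_pos)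
    refine Summable.of_norm_bounded_eventually_nat hsum ?_
    filter_upwards [h2] with n hn
    have h3 : 1 ≤ ‖deriv (f^[n]) ζ‖ := by
      by_contra hlt
      push Not at hlt
      have h4 : 1 ≤ ‖deriv (f^[n]) ζ‖ ^ (-δ) :=
        Real.one_le_rpow_of_pos_of_le_one_of_nonpos (ha n) hlt.le (by linarith)
      linarith
    rw [Real.norm_of_nonneg (Real.rpow_nonneg (ha n).le _)]
    exact Real.rpow_le_rpow_of_exponent_le h3 (by linarith)
  obtain ⟨L₀, hL₀⟩ := sum_first _ ha q hq1 hsq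
  obtain ⟨k, hk⟩ := exists_nat_ge (max L₀ 1)
  refine mem_iUnion.2 ⟨q, mem_iUnion.2 ⟨k, ht, ζ, hζ, hRL, fun L hL => ?_⟩⟩
  have hL1 : 1 ≤ L := ((le_max_right _ _).trans hk).trans hL
  obtain ⟨n, hn1, hn2⟩ := hL₀ L (((le_max_left _ _).trans hk).trans hL) hL1
  refine ⟨ζ, mem_ball_self (by positivity), n, fun j _ => (hfr ζ hζ j).trans_lt hRR, ?_, ?_⟩
  · rw [one_mul]
    exact hn1
  · rw [one_mul]
    exact hn2

end Pool.Agent.HMZ
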