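import Pool.Agent.HMZ.St

/-!
# HMZ, TC: two constants with radial limits (helper41)
-/

set_option autoImplicit false

noncomputable section

namespace Pool.Agent.HMZ

open Complex Metric Set Filter Topology MeasureTheory

theorem thm_TC (hTCu : St_TCu) : St_TC := by
  intro ρ hρ hρ1
  have hπ := Real.pi_pos
  refine ⟨(1 - ρ) / (8 * Real.pi), by
    have : 0 < 1 - ρ := by linarith
    positivity, ?_⟩
  intro M m g T hg hM hm hmM hT hTm w hw
  set κ := (1 - ρ) / (8 * Real.pi) with hκ
  have hκ0 : 0 < κ := by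
    have : 0 < 1 - ρ := by linarith
    positivity
  have hM0 : 0 < M := hm.trans_le hmM
  let u : ℕ → ℝ := fun n => 1 - 1 / (n + 2)
  have hu1 : ∀ n, u n < 1 := fun n => by
    have : (0 : ℝ) < 1 / (n + 2) := by positivity
    simp only [u]; linarith
  have hu0 : ∀ n, 0 < u n := fun n => by
    have : (1 : ℝ) / (n + 2) < 1 := by
      rw [div_lt_one (by positivity)]
      have : (0 : ℝ) ≤ n := Nat.cast_nonneg n
      linarith
    simp only [u]; linarith
  have hut : Tendsto u atTop (𝓝 1) := by
    have h1 : Tendsto (fun n : ℕ => (1 : ℝ) / (n + 2)) atTop (𝓝 0) :=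
      tendsto_const_nhds.div_atTop (tendsto_atTop_add_const_right _ _ tendsto_natCast_atTop_atTop)
    have h2 := (tendsto_const_nhds (x := (1 : ℝ))).sub h1
    rw [sub_zero] at h2
    exact h2
  have hut' : Tendsto u atTop (𝓝[<] 1) :=
    tendsto_nhdsWithin_iff.2 ⟨hut, Eventually.of_forall fun n => hu1 n⟩
  let S : ℕ → Set ℝ := fun n => Icc 0 (2 * Real.pi) ∩ ⋂ k ∈ Ici n, {t : ℝ | ‖g (u k * exp (t * I))‖ ≤ m}
  have hcont : ∀ k, Continuous fun t : ℝ => ‖g (u k * exp (t * I))‖ := by
    intro k
    apply Continuous.norm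
    apply hg.continuousOn.comp_continuous (by fun_prop)
    intro t
    rw [mem_ball_zero_iff, norm_mul, Complex.norm_exp_ofReal_mul_I, mul_one, Complex.norm_real,
      Real.norm_eq_abs, abs_of_pos (hu0 k)]
    exact hu1 k
  have hSc : ∀ n, IsClosed (S n) := fun n =>
    isClosed_Icc.inter (isClosed_biInter fun k _ => isClosed_le (hcont k) continuous_const)
  have hSmono : Monotone S := by
    intro n n' hn
    refine inter_subset_inter_right _ ?_
    intro t ht
    simp only [mem_iInter] at ht ⊢
    intro k hk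
    exact ht k (le_trans hn hk)
  have hTS : T ⊆ ⋃ n, S n := by
    intro t ht
    have h1 := hut'.eventually (hTm t ht)
    rw [eventually_atTop] at h1
    obtain ⟨n, hn⟩ := h1
    refine mem_iUnion.2 ⟨n, hT ht, ?_⟩
    simp only [mem_iInter]
    exact fun k hk => hn k hk
  have hlim : Tendsto (fun n => volume (S n)) atTop (𝓝 (volume (⋃ n, S n))) :=
    tendsto_measure_iUnion_atTop hSmono
  have hUfin : volume (⋃ n, S n) ≠ ⊤ := by
    have h1 : (⋃ n, S n) ⊆ Icc 0 (2 * Real.pi) := iUnion_subset fun n => inter_subset_left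
    exact ((measure_mono h1).trans_lt measure_Icc_lt_top).ne
  have hlim' : Tendsto (fun n => (volume (S n)).toReal) atTop (𝓝 (volume (⋃ n, S n)).toReal) :=
    (ENNReal.tendsto_toReal hUfin).comp hlim
  have hbd : ∀ᶠ n in atTop, ‖g w‖ ≤ M * (m / M) ^ (κ * (volume (S n)).toReal) := by
    have h1 : ∀ᶠ n in atTop, (1 + ρ) / 2 < u n := by
      apply hut.eventually (lt_mem_nhds _)
      linarith
    filter_upwards [h1] with n hn
    exact hTCu ρ (u n) M m g (S n) w hρ hρ1 hn.le (hu1 n) hg hM hm hmM (hSc n).measurableSet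
      inter_subset_left (fun t ht => by
        have := ht.2
        simp only [mem_iInter] at this
        exact this n (mem_Ici.2 le_rfl)) hw
  have hq0 : 0 < m / M := by positivity
  have hq1 : m / M ≤ 1 := (div_le_one hM0).2 hmM
  have hlim2 : Tendsto (fun n => M * (m / M) ^ (κ * (volume (S n)).toReal)) atTop
      (𝓝 (M * (m / M) ^ (κ * (volume (⋃ n, S n)).toReal))) := by
    apply Tendsto.const_mul
    exact ((Real.continuousAt_const_rpow hq0.ne').tendsto).comp (hlim'.const_mul κ)
  have h3 := ge_of_tendsto hlim2 hbd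
  refine h3.trans ?_
  apply mul_le_mul_of_nonneg_left _ hM0.le
  apply Real.rpow_le_rpow_of_exponent_ge hq0 hq1
  exact mul_le_mul_of_nonneg_left (ENNReal.toReal_mono hUfin (measure_mono hTS)) hκ0.le

end Pool.Agent.HMZ
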