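import Pool.Agent.HMZ.St

/-!
# HMZ, TCu: two constants on one circle (helper41)
-/

set_option autoImplicit false

noncomputable section

namespace Pool.Agent.HMZ

open Complex Metric Set Filter Topology MeasureTheory
open scoped Interval

theorem tcu_kernel {u ρ : ℝ} {w z : ℂ} (hρ : 0 < ρ) (hρ1 : ρ < 1) (hu : (1 + ρ) / 2 ≤ u)
    (hu1 : u < 1) (hw : ‖w‖ ≤ ρ) (hz : ‖z‖ = u) : (1 - ρ) / 4 ≤ poissonKernel 0 w z := by
  have hu0 : 0 < u := by linarith
  have h1 := le_re_herglotzRieszKernel (c := 0) (z := z) (w := w) (R := u)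
    (by rw [mem_sphere_zero_iff_norm]; exact hz) (by rw [mem_ball_zero_iff]; linarith)
  have h2 : poissonKernel 0 w z = ((z - 0 + (w - 0)) / ((z - 0) - (w - 0))).re := by
    rw [poissonKernel_eq_re_herglotzRieszKernel]; rfl
  rw [h2]
  refine le_trans ?_ h1
  rw [sub_zero, div_le_div_iff₀ (by norm_num) (by positivity)]
  nlinarith [norm_nonneg w]

theorem thm_TCu (hPJ : St_PJ) : St_TCu := by
  intro ρ u M m g T w hρ hρ1 hu hu1 hg hM hm hmM hT hT2 hTm hw
  have hM0 : 0 < M := hm.trans_le hmM
  have hu0 : 0 < u := by linarith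
  have hu' : |u| = u := abs_of_pos hu0
  have hwu : w ∈ ball (0 : ℂ) u := by rw [mem_ball_zero_iff]; linarith
  by_cases hgw : g w = 0
  · rw [hgw, norm_zero]; positivity
  have hsub : closedBall (0 : ℂ) u ⊆ ball 0 1 := closedBall_subset_ball hu1
  have hga : AnalyticOnNhd ℂ g (closedBall 0 u) := (hg.analyticOnNhd isOpen_ball).mono hsub
  obtain ⟨hI, hle⟩ := hPJ g u w hu0 hga hwu hgw
  -- replace the logarithm at the zeros
  let ℓ : ℂ → ℝ := fun z => if g z = 0 then Real.log m else Real.log ‖g z‖
  have hcod : (fun z => poissonKernel 0 w z * Real.log ‖g z‖) =ᶠ[codiscreteWithin (sphere 0 |u|)]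
      fun z => poissonKernel 0 w z * ℓ z := by
    have h1 : {z | g z ≠ 0} ∈ codiscreteWithin (closedBall (0 : ℂ) u) := by
      rcases hga.eqOn_zero_or_eventually_ne_zero_of_preconnected
        (convex_closedBall 0 u).isPreconnected with h2 | h2
      · exact absurd (h2 (ball_subset_closedBall hwu)) hgw
      · exact h2
    have h3 : {z | g z ≠ 0} ∈ codiscreteWithin (sphere (0 : ℂ) |u|) := by
      rw [hu']
      exact codiscreteWithin_mono sphere_subset_closedBall h1
    filter_upwards [h3] with z hz
    have hz' : g z ≠ 0 := hz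
    simp only [ℓ, if_neg hz']
  have hI' : CircleIntegrable (fun z => poissonKernel 0 w z * ℓ z) 0 u :=
    hI.congr_codiscreteWithin hcod
  rw [Real.circleAverage_congr_codiscreteWithin hcod hu0.ne'] at hle
  set q : ℝ := Real.log (m / M) with hq
  have hq0 : q ≤ 0 := Real.log_nonpos (by positivity) ((div_le_one hM0).2 hmM)
  have hqM : Real.log m = Real.log M + q := by
    rw [hq, Real.log_div hm.ne' hM0.ne']; ring
  -- average of the kernel
  have hone : Real.circleAverage (poissonKernel 0 w) 0 u = 1 := by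
    have h1 : InnerProductSpace.HarmonicOnNhd (fun _ : ℂ => (1 : ℝ)) (closedBall 0 u) := by
      intro z _
      exact InnerProductSpace.harmonicAt_const 1
    have h2 := InnerProductSpace.HarmonicOnNhd.circleAverage_poissonKernel_smul h1 hwu
    have h3 : (poissonKernel 0 w • fun _ : ℂ => (1 : ℝ)) = poissonKernel 0 w := by
      funext z; simp
    rwa [h3] at h2
  have hPc : ContinuousOn (poissonKernel 0 w) (sphere 0 |u|) := by
    rw [poissonKernel_eq_re_herglotzRieszKernel]
    exact Complex.continuous_re.comp_continuousOn (continuousOn_herglotzRieszKernel_sphere hwu)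
  have hPI : CircleIntegrable (poissonKernel 0 w) 0 u := hPc.circleIntegrable'
  have hnorm : ∀ θ, ‖circleMap 0 u θ‖ = u := fun θ => by rw [norm_circleMap_zero, hu']
  have hθ : ∀ θ : ℝ, circleMap 0 u θ = u * exp (θ * I) := fun θ => by simp [circleMap]
  have hpt : ∀ θ : ℝ, poissonKernel 0 w (circleMap 0 u θ) * ℓ (circleMap 0 u θ) ≤
      poissonKernel 0 w (circleMap 0 u θ) * Real.log M + (1 - ρ) / 4 * q * T.indicator 1 θ := by
    intro θ
    have hk := tcu_kernel hρ hρ1 hu hu1 hw (hnorm θ)
    have hk0 : 0 ≤ poissonKernel 0 w (circleMap 0 u θ) := by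
      have : 0 < (1 - ρ) / 4 := by linarith
      linarith
    by_cases hT' : θ ∈ T
    · rw [indicator_of_mem hT', Pi.one_apply, mul_one]
      have h1 : ℓ (circleMap 0 u θ) ≤ Real.log m := by
        by_cases h0 : g (circleMap 0 u θ) = 0
        · simp only [ℓ, if_pos h0]; exact le_rfl
        · simp only [ℓ, if_neg h0]
          apply Real.log_le_log (norm_pos_iff.2 h0)
          rw [hθ]; exact hTm θ hT'
      rw [hqM] at h1
      nlinarith
    · rw [indicator_of_notMem hT', mul_zero, add_zero]
      apply mul_le_mul_of_nonneg_left _ hk0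
      by_cases h0 : g (circleMap 0 u θ) = 0
      · simp only [ℓ, if_pos h0]; exact Real.log_le_log hm hmM
      · simp only [ℓ, if_neg h0]
        apply Real.log_le_log (norm_pos_iff.2 h0)
        apply hM
        rw [mem_ball_zero_iff, hnorm]; exact hu1
  have hTfin : volume T ≠ ⊤ := ((measure_mono hT2).trans_lt measure_Icc_lt_top).ne
  have hindG : Integrable (T.indicator (1 : ℝ → ℝ)) volume := by
    rw [integrable_indicator_iff hT]
    exact integrableOn_const (C := (1 : ℝ)) hTfin
  have hindI : IntervalIntegrable (T.indicator (1 : ℝ → ℝ)) volume 0 (2 * Real.pi) :=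
    hindG.intervalIntegrable
  have hindI' : IntervalIntegrable (fun θ => (1 - ρ) / 4 * q * T.indicator (1 : ℝ → ℝ) θ) volume 0
      (2 * Real.pi) := hindI.const_mul _
  have hPI' : IntervalIntegrable (fun θ => poissonKernel 0 w (circleMap 0 u θ) * Real.log M) volume
      0 (2 * Real.pi) := IntervalIntegrable.mul_const hPI _
  have hmono : ∫ θ in (0 : ℝ)..2 * Real.pi, poissonKernel 0 w (circleMap 0 u θ) *
      ℓ (circleMap 0 u θ) ≤ ∫ θ in (0 : ℝ)..2 * Real.pi, (poissonKernel 0 w (circleMap 0 u θ) *
        Real.log M + (1 - ρ) / 4 * q * T.indicator (1 : ℝ → ℝ) θ) :=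
    intervalIntegral.integral_mono (by positivity) hI' (hPI'.add hindI') hpt
  have hTint : ∫ θ in (0 : ℝ)..2 * Real.pi, T.indicator (1 : ℝ → ℝ) θ = (volume T).toReal := by
    rw [intervalIntegral.integral_of_le (by positivity), setIntegral_indicator hT]
    have h1 : volume (Ioc 0 (2 * Real.pi) ∩ T) = volume T := by
      apply le_antisymm (measure_mono inter_subset_right)
      calc volume T ≤ volume ((Ioc 0 (2 * Real.pi) ∩ T) ∪ {0}) := by
            apply measure_mono
            intro t ht
            rcases eq_or_ne t 0 with rfl | h0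
            · exact Or.inr rfl
            · have := hT2 ht
              exact Or.inl ⟨⟨lt_of_le_of_ne this.1 (Ne.symm h0), this.2⟩, ht⟩
        _ ≤ volume (Ioc 0 (2 * Real.pi) ∩ T) + volume {(0 : ℝ)} := measure_union_le _ _
        _ = volume (Ioc 0 (2 * Real.pi) ∩ T) := by rw [Real.volume_singleton, add_zero]
    simp only [Pi.one_apply, setIntegral_const, smul_eq_mul, mul_one]
    rw [Measure.real, h1]
  have hone' : ∫ θ in (0 : ℝ)..2 * Real.pi, poissonKernel 0 w (circleMap 0 u θ) = 2 * Real.pi := by
    rw [Real.circleAverage_def, smul_eq_mul] at hone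
    have hπ : (2 * Real.pi) ≠ 0 := by positivity
    field_simp at hone
    exact hone
  rw [intervalIntegral.integral_add hPI' hindI', intervalIntegral.integral_mul_const,
    intervalIntegral.integral_const_mul, hTint, hone'] at hmono
  rw [Real.circleAverage_def, smul_eq_mul] at hle
  have hfin : Real.log ‖g w‖ ≤ Real.log M + (1 - ρ) / (8 * Real.pi) * (volume T).toReal * q := by
    refine hle.trans ?_
    have hπ := Real.pi_pos
    calc (2 * Real.pi)⁻¹ * ∫ θ in (0 : ℝ)..2 * Real.pi, poissonKernel 0 w (circleMap 0 u θ) *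
          ℓ (circleMap 0 u θ)
        ≤ (2 * Real.pi)⁻¹ * (2 * Real.pi * Real.log M + (1 - ρ) / 4 * q * (volume T).toReal) :=
          mul_le_mul_of_nonneg_left hmono (by positivity)
      _ = Real.log M + (1 - ρ) / (8 * Real.pi) * (volume T).toReal * q := by
          field_simp
          ring
  have hgw0 : 0 < ‖g w‖ := norm_pos_iff.2 hgw
  rw [← Real.exp_log hgw0]
  calc Real.exp (Real.log ‖g w‖) ≤
      Real.exp (Real.log M + (1 - ρ) / (8 * Real.pi) * (volume T).toReal * q) :=
        Real.exp_le_exp.2 hfin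
    _ = M * (m / M) ^ ((1 - ρ) / (8 * Real.pi) * (volume T).toReal) := by
        rw [Real.exp_add, Real.exp_log hM0, Real.rpow_def_of_pos (by positivity), hq]
        congr 2
        ring

end Pool.Agent.HMZ
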