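import Pool.Agent.HMZ.St
import Pool.Agent.AS.Local
import Pool.Agent.AS.CompA
import Pool.Agent.AS.Cover
import Pool.Agent.AS.SCa
import Pool.Agent.AS.SCb
import Pool.Agent.AS.FatA
import Pool.Agent.AS.FatB

/-!
# HMZ, module Tail: all iterates are injective on a later image
-/

set_option autoImplicit false

namespace Pool.Agent.HMZ

open Complex Metric Set Filter Topology MeasureTheory Pool.Agent.AS

theorem thm_Tail : St_Tail := by
  intro f R V hf hnc hV hdis
  have hInv : Stmt_FatInv := fatInv
  have hImg : Stmt_CompImage := compImage hInv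
  have hChain : Stmt_CompChain := compChain fatMontel
  have hSC : Stmt_SC := sc_of scA scB
  have hCov : Stmt_Cover := cover
  have hcomp : ∀ j, Comp f R (f^[j] '' V) := local_comp hImg hf hnc hV
  have hfd : Differentiable ℂ (deriv f) := by
    intro z
    exact ((hf.analyticAt z).deriv).differentiableAt
  have hfin := local_finite hfd hnc (isCompact_closedBall (0 : ℂ) R)
  -- critical points
  have hm : ∃ m : ℕ, ∀ j ≥ m, ∀ z ∈ f^[j] '' V, deriv f z ≠ 0 := by
    have hbad : {j : ℕ | ∃ z ∈ f^[j] '' V, deriv f z = 0}.Finite := by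
      have h1 : ∀ j ∈ {j : ℕ | ∃ z ∈ f^[j] '' V, deriv f z = 0}, ∃ z : ℂ,
          z ∈ closedBall (0 : ℂ) R ∩ {z | deriv f z = 0} ∧ z ∈ f^[j] '' V := by
        rintro j ⟨z, hz, hz0⟩
        refine ⟨z, ⟨?_, hz0⟩, hz⟩
        rw [mem_closedBall_zero_iff]
        simpa using (hcomp j).bd 0 z hz
      choose! c hc1 hc2 using h1
      refine Set.Finite.of_finite_image (f := c) (hfin.subset ?_) ?_
      · rintro _ ⟨j, hj, rfl⟩
        exact hc1 j hj
      · intro i hi j hj hij
        by_contra hne
        exact Set.disjoint_left.1 (hdis i j hne) (hc2 i hi) (hij ▸ hc2 j hj)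
    obtain ⟨m, hm⟩ := hbad.bddAbove
    refine ⟨m + 1, fun j hj z hz h0 => ?_⟩
    have := hm (show j ∈ {j : ℕ | ∃ z ∈ f^[j] '' V, deriv f z = 0} from ⟨z, hz, h0⟩)
    omega
  obtain ⟨m, hm⟩ := hm
  have hinjf : ∀ j ≥ m, InjOn f (f^[j] '' V) := by
    intro j hj
    have hc := hcomp j
    have hc' := hcomp (j + 1)
    rw [local_image_succ] at hc'
    have hb : ∀ j, Bornology.IsBounded (f^[j] '' V) := fun j => by
      refine (isBounded_closedBall (x := (0 : ℂ)) (r := R)).subset fun z hz => ?_
      rw [mem_closedBall_zero_iff]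
      simpa using (hcomp j).bd 0 z hz
    have hb' : Bornology.IsBounded (f '' (f^[j] '' V)) := by
      rw [← local_image_succ]
      exact hb (j + 1)
    refine hCov f _ hf hc.op hc.conn (hb j) (hSC _ hc'.op hc'.conn hb'
      (hChain f R _ hf hc')) ?_ (hm j hj)
    intro z hz hzV
    exact hc.fr z hz ((hInv f hf hnc z).1 (hc'.fat hzV))
  have hinjV : ∀ n, InjOn (f^[n]) (f^[m] '' V) := by
    intro n
    induction n with
    | zero => exact injOn_id _
    | succ n ih =>
      rw [Function.iterate_succ']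
      refine InjOn.comp (t := f^[m + n] '' V) (hinjf (m + n) (by omega)) ih ?_
      rintro _ ⟨z, hz, rfl⟩
      refine ⟨z, hz, ?_⟩
      rw [← Function.iterate_add_apply, add_comm]
  exact ⟨m, hcomp m, hinjV⟩

end Pool.Agent.HMZ
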